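import Mathlib
import Pool.Agent.R528.RM.BHOut

set_option autoImplicit false

/-! # Values of polynomials without prime factors up to a slowly growing bound

`W j = ∏ (1 - 1/p)⁻¹` over the primes `p ≤ j`, `PM j = ∏ p`.  For a slowly growing, eventually monotone
`u` the average of `W (u n)` over the `n < x` for which `f(n)` is coprime to `PM (u n)` tends to the
constant of Bateman and Horn. -/

open MeasureTheory Filter Set Polynomial
open scoped ENNReal Topology

namespace Pool.Agent.U462.RM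

open Pool.Agent.R528.RM

/-- the primes up to `j` -/
def PS (j : ℕ) : Finset ℕ := (Finset.range (j + 1)).filter Nat.Prime

/-- the product of the primes up to `j` -/
def PM (j : ℕ) : ℕ := ∏ p ∈ PS j, p

/-- `∏ (1 - 1/p)⁻¹` over the primes up to `j` -/
noncomputable def W (j : ℕ) : ℝ := ∏ p ∈ PS j, (1 - 1 / (p : ℝ))⁻¹

lemma PS_prime {j p : ℕ} (h : p ∈ PS j) : p.Prime := (Finset.mem_filter.1 h).2

lemma PM_pos (j : ℕ) : 0 < PM j := Finset.prod_pos fun _ h => (PS_prime h).pos

lemma PM_le (j : ℕ) : PM j ≤ 4 ^ j := primorial_le_four_pow j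

lemma PS_succ (j : ℕ) : PS (j + 1) = if (j + 1).Prime then insert (j + 1) (PS j) else PS j := by
  unfold PS
  rw [Finset.range_add_one, Finset.filter_insert]

lemma notMem_PS (j : ℕ) : j + 1 ∉ PS j := by
  unfold PS
  simp

lemma fac_ge {p : ℕ} (hp : p.Prime) : 1 ≤ (1 - 1 / (p : ℝ))⁻¹ := by
  have hq2 : (1 : ℝ) < p := by exact_mod_cast hp.one_lt
  have h1 : 1 / (p : ℝ) < 1 := (div_lt_one (by linarith)).2 hq2
  have h2 : 0 < 1 / (p : ℝ) := by positivity
  rw [one_le_inv₀ (by linarith)]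
  linarith

lemma W_step (j : ℕ) : W j ≤ W (j + 1) ∧ (1 ≤ j → W (j + 1) ≤ W j * ((j + 1 : ℝ) / j)) ∧ PM j ≤ PM (j + 1) := by
  have h0 : 0 ≤ W j := Finset.prod_nonneg fun p hp => zero_le_one.trans (fac_ge (PS_prime hp))
  unfold W PM at *
  rw [PS_succ]
  by_cases h : (j + 1).Prime
  · rw [if_pos h, Finset.prod_insert (notMem_PS j), Finset.prod_insert (notMem_PS j)]
    refine ⟨?_, ?_, ?_⟩
    · have := fac_ge h
      nlinarith
    · intro hj
      have hj' : (0 : ℝ) < j := by exact_mod_cast hj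
      have e : (1 - 1 / ((j + 1 : ℕ) : ℝ))⁻¹ = ((j + 1 : ℝ) / j) := by
        push_cast
        rw [one_sub_div (by positivity), inv_div]
        congr 1
        ring
      rw [e, mul_comm]
    · have : 1 ≤ j + 1 := by omega
      calc ∏ p ∈ PS j, p = 1 * ∏ p ∈ PS j, p := (one_mul _).symm
        _ ≤ _ := Nat.mul_le_mul_right _ this
  · rw [if_neg h]
    refine ⟨le_rfl, fun hj => ?_, le_rfl⟩
    have hj' : (0 : ℝ) < j := by exact_mod_cast hj
    have : 1 ≤ ((j + 1 : ℝ) / j) := by rw [one_le_div hj']; linarith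
    nlinarith

lemma W_ge (j : ℕ) : 1 ≤ W j := by
  have h : ∀ p ∈ PS j, (1 : ℝ) ≤ (1 - 1 / (p : ℝ))⁻¹ := fun p hp => fac_ge (PS_prime hp)
  calc (1 : ℝ) = ∏ p ∈ PS j, (1 : ℝ) := by simp
    _ ≤ _ := Finset.prod_le_prod (fun _ _ => zero_le_one) h

lemma W_mono : Monotone W := monotone_nat_of_le_succ fun j => (W_step j).1

lemma PM_mono : Monotone PM := monotone_nat_of_le_succ fun j => (W_step j).2.2

lemma W_le (j : ℕ) : W j ≤ (j : ℝ) + 1 := by
  have h : ∀ j : ℕ, 1 ≤ j → W j ≤ j := by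
    intro j hj
    induction j, hj using Nat.le_induction with
    | base =>
      have : PS 1 = ∅ := by decide
      unfold W
      rw [this]
      simp
    | succ j hj ih =>
      have hj' : (0 : ℝ) < j := by exact_mod_cast hj
      refine ((W_step j).2.1 hj).trans ?_
      calc W j * ((j + 1 : ℝ) / j) ≤ j * ((j + 1 : ℝ) / j) := by gcongr
        _ = ((j + 1 : ℕ) : ℝ) := by push_cast; field_simp
  rcases Nat.eq_zero_or_pos j with rfl | hj
  · have : PS 0 = ∅ := by decide
    unfold W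
    rw [this]
    simp
  · have := h j hj
    linarith

/-- the bound for the errors -/
noncomputable def BB (j : ℕ) : ℝ := W j * PM j

lemma BB_mono : Monotone BB := by
  intro i j h
  unfold BB
  have h1 := W_mono h
  have h2 : (PM i : ℝ) ≤ PM j := by exact_mod_cast PM_mono h
  have h3 := W_ge i
  exact mul_le_mul h1 h2 (by positivity) (by linarith)

lemma BB_nonneg (j : ℕ) : 0 ≤ BB j := mul_nonneg (zero_le_one.trans (W_ge j)) (by positivity)

lemma sq_le_four (j : ℕ) : ((j : ℝ) + 1) ^ 2 ≤ 4 ^ j := by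
  induction j with
  | zero => simp
  | succ j ih =>
    have e : (4 : ℝ) ^ (j + 1) = 4 ^ j * 4 := pow_succ _ _
    rw [e]
    push_cast
    rcases Nat.eq_zero_or_pos j with rfl | hj
    · norm_num
    · have hj' : (1 : ℝ) ≤ j := by exact_mod_cast hj
      nlinarith

lemma BB_le (j : ℕ) : 3 * ((j : ℝ) + 1) * BB j ≤ 3 * 16 ^ j := by
  have h1 := W_le j
  have h2 : (PM j : ℝ) ≤ 4 ^ j := by exact_mod_cast PM_le j
  have h3 := sq_le_four j
  have h4 := W_ge j
  have h5 : BB j ≤ ((j : ℝ) + 1) * 4 ^ j := by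
    unfold BB
    exact mul_le_mul h1 h2 (by positivity) (by positivity)
  calc 3 * ((j : ℝ) + 1) * BB j ≤ 3 * ((j : ℝ) + 1) * (((j : ℝ) + 1) * 4 ^ j) := by gcongr
    _ = 3 * (((j : ℝ) + 1) ^ 2 * 4 ^ j) := by ring
    _ ≤ 3 * (4 ^ j * 4 ^ j) := by gcongr
    _ = 3 * 16 ^ j := by rw [← mul_pow]; norm_num

/-- the truncated constant of Bateman and Horn -/
noncomputable def CC (f : ℤ[X]) (j : ℕ) : ℝ :=
  ∏ p ∈ PS j, ((1 - (omegaF {f} p : ℝ) / p) / (1 - 1 / (p : ℝ)))

/-- the density of the good arguments -/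
noncomputable def DD (f : ℤ[X]) (j : ℕ) : ℝ := (Nat.count (good {f} (PM j)) (PM j) : ℝ) / PM j

lemma DD_bounds (f : ℤ[X]) (j : ℕ) : 0 ≤ DD f j ∧ DD f j ≤ 1 := by
  unfold DD
  have h1 : (0 : ℝ) < PM j := by exact_mod_cast PM_pos j
  refine ⟨by positivity, (div_le_one h1).2 ?_⟩
  exact_mod_cast Nat.count_le (p := good {f} (PM j)) (n := PM j)

lemma CC_eq (f : ℤ[X]) (j : ℕ) : CC f j = DD f j * W j := by
  have h1 := const_prod {f} (PS j) fun p hp => PS_prime hp
  have h2 := totient_prod (PS j) fun p hp => PS_prime hp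
  rw [Finset.card_singleton, pow_one, h2] at h1
  unfold CC DD W
  rw [show PM j = ∏ p ∈ PS j, p from rfl, h1]
  refine Finset.prod_congr rfl fun p hp => ?_
  have hpp := PS_prime hp
  have h3 := omega_good {f} hpp
  have h4 : (Nat.count (good {f} p) p : ℝ) = p - omegaF {f} p := by
    have : ((Nat.count (good {f} p) p : ℕ) : ℝ) + (omegaF {f} p : ℕ) = p := by exact_mod_cast h3
    linarith
  have h5 : (p : ℝ) ≠ 0 := by exact_mod_cast hpp.ne_zero
  rw [h4, pow_one, div_eq_mul_inv]
  congr 1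
  field_simp

open Classical in
/-- the weight of the argument `n` -/
noncomputable def aw (f : ℤ[X]) (j n : ℕ) : ℝ := if good {f} (PM j) n then W j else 0

lemma aw_bounds (f : ℤ[X]) (j n : ℕ) : 0 ≤ aw f j n ∧ aw f j n ≤ W j := by
  unfold aw
  have := W_ge j
  split_ifs
  · exact ⟨by linarith, le_rfl⟩
  · exact ⟨le_rfl, by linarith⟩

/-- the partial sums of the weights -/
noncomputable def GS (f : ℤ[X]) (j x : ℕ) : ℝ := ∑ n ∈ Finset.range x, (aw f j n - CC f j)

lemma GS_succ (f : ℤ[X]) (j x : ℕ) : GS f j (x + 1) = GS f j x + (aw f j x - CC f j) := by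
  unfold GS
  rw [Finset.sum_range_succ]

lemma GS_bound (f : ℤ[X]) (j x : ℕ) : |GS f j x| ≤ BB j := by
  classical
  have hM := PM_pos j
  have h1 : ∑ n ∈ Finset.range x, aw f j n = W j * Nat.count (good {f} (PM j)) x := by
    rw [Nat.count_eq_card_filter_range, ← Finset.sum_boole, Finset.mul_sum]
    refine Finset.sum_congr rfl fun n _ => ?_
    unfold aw
    split_ifs <;> simp
  have h2 : ∀ q r : ℕ, Nat.count (good {f} (PM j)) (q * PM j + r) =
      q * Nat.count (good {f} (PM j)) (PM j) + Nat.count (good {f} (PM j)) r := by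
    intro q r
    induction q with
    | zero => simp
    | succ q ih =>
      rw [show (q + 1) * PM j + r = PM j + (q * PM j + r) by ring, Nat.count_add]
      have h3 : Nat.count (fun k => good {f} (PM j) (PM j + k)) (q * PM j + r) =
          Nat.count (good {f} (PM j)) (q * PM j + r) := by
        congr 1
        funext k
        rw [add_comm]
        exact good_periodic {f} (PM j) k
      rw [h3, ih]
      ring
  obtain ⟨q, r, hr, hx⟩ : ∃ q r : ℕ, r < PM j ∧ x = q * PM j + r :=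
    ⟨x / PM j, x % PM j, Nat.mod_lt _ hM, by rw [mul_comm]; exact (Nat.div_add_mod x (PM j)).symm⟩
  have h4 : GS f j x = W j * (Nat.count (good {f} (PM j)) r - DD f j * r) := by
    unfold GS
    rw [Finset.sum_sub_distrib, h1, Finset.sum_const, Finset.card_range, CC_eq, hx, h2]
    have hM' : (PM j : ℝ) ≠ 0 := by exact_mod_cast hM.ne'
    unfold DD
    push_cast
    rw [nsmul_eq_mul]
    push_cast
    field_simp
    ring
  rw [h4, abs_mul, abs_of_nonneg (zero_le_one.trans (W_ge j))]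
  unfold BB
  refine mul_le_mul_of_nonneg_left ?_ (zero_le_one.trans (W_ge j))
  have h5 : (Nat.count (good {f} (PM j)) r : ℝ) ≤ r := by
    exact_mod_cast Nat.count_le (good {f} (PM j))
  have h6 : (0 : ℝ) ≤ Nat.count (good {f} (PM j)) r := by positivity
  have h7 : (r : ℝ) ≤ PM j := by exact_mod_cast hr.le
  have h8 := DD_bounds f j
  have h9 : (0 : ℝ) ≤ r := by positivity
  rw [abs_le]
  constructor
  · nlinarith
  · nlinarith


/-- the bound for the partial sums with varying `j` -/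
noncomputable def EE (j : ℕ) : ℝ := 2 * ∑ i ∈ Finset.range (j + 1), BB i

lemma EE_le (j : ℕ) : EE j + BB j ≤ 3 * 16 ^ j := by
  have h1 : ∑ i ∈ Finset.range (j + 1), BB i ≤ ∑ i ∈ Finset.range (j + 1), BB j :=
    Finset.sum_le_sum fun i hi => BB_mono (by have := Finset.mem_range.1 hi; omega)
  rw [Finset.sum_const, Finset.card_range, nsmul_eq_mul] at h1
  push_cast at h1
  have h2 := BB_le j
  have h3 := BB_nonneg j
  have h4 : 0 ≤ (j : ℝ) * BB j := by positivity
  unfold EE
  nlinarith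

lemma EE_step {i j : ℕ} (h : i < j) : EE i + 2 * BB j ≤ EE j := by
  unfold EE
  have hsub : insert j (Finset.range (i + 1)) ⊆ Finset.range (j + 1) := by
    intro k hk
    rw [Finset.mem_insert, Finset.mem_range] at hk
    rw [Finset.mem_range]
    omega
  have h1 := Finset.sum_le_sum_of_subset_of_nonneg hsub fun k _ _ => BB_nonneg k
  rw [Finset.sum_insert (by rw [Finset.mem_range]; omega)] at h1
  linarith

lemma BB_le_EE (j : ℕ) : BB j ≤ EE j := by
  unfold EE
  rw [Finset.sum_range_succ]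
  have h1 : 0 ≤ ∑ i ∈ Finset.range j, BB i := Finset.sum_nonneg fun i _ => BB_nonneg i
  have h2 := BB_nonneg j
  linarith

/-- the partial sums with a slowly varying bound -/
lemma SS_bound (f : ℤ[X]) {u : ℕ → ℕ} {n₀ : ℕ} (hu : ∀ n, n₀ ≤ n → u n ≤ u (n + 1)) (x : ℕ) (hx : n₀ ≤ x) :
    |∑ n ∈ Finset.Ico n₀ x, (aw f (u n) n - CC f (u n)) - GS f (u x) x| ≤ EE (u x) := by
  induction x, hx using Nat.le_induction with
  | base =>
    rw [Finset.Ico_self, Finset.sum_empty, zero_sub, abs_neg]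
    exact (GS_bound f _ _).trans (BB_le_EE _)
  | succ x hx ih =>
    rw [Finset.sum_Ico_succ_top hx]
    have h1 := GS_succ f (u x) x
    rcases (hu x hx).eq_or_lt with h2 | h2
    · rw [← h2, h1]
      have e : ∑ n ∈ Finset.Ico n₀ x, (aw f (u n) n - CC f (u n)) + (aw f (u x) x - CC f (u x)) -
          (GS f (u x) x + (aw f (u x) x - CC f (u x))) =
          ∑ n ∈ Finset.Ico n₀ x, (aw f (u n) n - CC f (u n)) - GS f (u x) x := by ring
      rw [e]
      exact ih
    · have h3 := GS_bound f (u x) (x + 1)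
      have h4 := GS_bound f (u (x + 1)) (x + 1)
      have h5 := BB_mono h2.le
      have h6 := EE_step h2
      have e : ∑ n ∈ Finset.Ico n₀ x, (aw f (u n) n - CC f (u n)) + (aw f (u x) x - CC f (u x)) -
          GS f (u (x + 1)) (x + 1) =
          (∑ n ∈ Finset.Ico n₀ x, (aw f (u n) n - CC f (u n)) - GS f (u x) x) +
          (GS f (u x) (x + 1) - GS f (u (x + 1)) (x + 1)) := by rw [h1]; ring
      rw [e]
      refine (abs_add_le _ _).trans ?_
      have h7 := abs_sub (GS f (u x) (x + 1)) (GS f (u (x + 1)) (x + 1))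
      linarith

lemma tendsto_log : Tendsto (fun n : ℕ => Real.log n) atTop atTop :=
  Real.tendsto_log_atTop.comp tendsto_natCast_atTop_atTop

/-- the errors are small -/
lemma err_small {u : ℕ → ℕ} (hs : Tendsto (fun n : ℕ => (u n : ℝ) / Real.log n) atTop (𝓝 0)) :
    Tendsto (fun x : ℕ => (3 * 16 ^ (u x) : ℝ) / x) atTop (𝓝 0) := by
  have h1 : ∀ᶠ n : ℕ in atTop, (u n : ℝ) ≤ (1 / 8) * Real.log n := by
    filter_upwards [hs.eventually (gt_mem_nhds (show (0 : ℝ) < 1 / 8 by norm_num)),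
      tendsto_log.eventually_gt_atTop 0] with n g1 g2
    rw [div_lt_iff₀ g2] at g1
    exact g1.le
  have h2 : Tendsto (fun x : ℕ => 3 * ((x : ℝ) ^ (-(1 / 2) : ℝ))) atTop (𝓝 (3 * 0)) :=
    ((tendsto_rpow_neg_atTop (show (0 : ℝ) < 1 / 2 by norm_num)).comp tendsto_natCast_atTop_atTop).const_mul 3
  rw [mul_zero] at h2
  refine squeeze_zero' (Eventually.of_forall fun x => by positivity) ?_ h2
  filter_upwards [h1, eventually_gt_atTop 1] with x g1 g2
  have hx : (0 : ℝ) < x := by exact_mod_cast (by omega : 0 < x)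
  have hL : 0 < Real.log x := Real.log_pos (by exact_mod_cast g2)
  have h3 : (16 : ℝ) ^ (u x) ≤ (x : ℝ) ^ (1 / 2 : ℝ) := by
    rw [← Real.rpow_natCast, ← Real.log_le_log_iff (by positivity) (by positivity),
      Real.log_rpow (by norm_num), Real.log_rpow hx]
    have h16 : Real.log 16 ≤ 4 := by
      rw [show (16 : ℝ) = 2 ^ (4 : ℕ) by norm_num, Real.log_pow]
      have := Real.log_two_lt_d9
      push_cast
      linarith
    have h16' : 0 ≤ Real.log 16 := Real.log_nonneg (by norm_num)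
    calc (u x : ℝ) * Real.log 16 ≤ (1 / 8) * Real.log x * 4 := by
          apply mul_le_mul g1 h16 h16' (by positivity)
      _ = 1 / 2 * Real.log x := by ring
  rw [mul_div_assoc]
  refine mul_le_mul_of_nonneg_left ?_ (by norm_num)
  rw [div_le_iff₀ hx]
  calc (16 : ℝ) ^ (u x) ≤ (x : ℝ) ^ (1 / 2 : ℝ) := h3
    _ = (x : ℝ) ^ (-(1 / 2) : ℝ) * x := by
      nth_rewrite 3 [← Real.rpow_one (x : ℝ)]
      rw [← Real.rpow_add hx]
      norm_num

/-- the average of the weights -/
theorem avg_aw (f : ℤ[X]) {u : ℕ → ℕ} (hu : ∀ᶠ n in atTop, u n ≤ u (n + 1)) (hu1 : Tendsto u atTop atTop)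
    (hs : Tendsto (fun n : ℕ => (u n : ℝ) / Real.log n) atTop (𝓝 0)) {C : ℝ} (hC : Tendsto (CC f) atTop (𝓝 C)) :
    Tendsto (fun x : ℕ => (∑ n ∈ Finset.range x, aw f (u n) n) / x) atTop (𝓝 C) := by
  obtain ⟨n₀, hn₀⟩ := eventually_atTop.1 hu
  have h1 : Tendsto (fun x : ℕ => (∑ n ∈ Finset.range x, CC f (u n)) / x) atTop (𝓝 C) := by
    refine ((hC.comp hu1).cesaro).congr fun x => ?_
    simp only [Function.comp_apply]
    rw [div_eq_inv_mul]
  set K : ℝ := ∑ n ∈ Finset.range n₀, (aw f (u n) n - CC f (u n)) with hK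
  have h2 : Tendsto (fun x : ℕ => (∑ n ∈ Finset.range x, (aw f (u n) n - CC f (u n))) / x) atTop (𝓝 0) := by
    have h3 : Tendsto (fun x : ℕ => |K| / x + (3 * 16 ^ (u x) : ℝ) / x) atTop (𝓝 (0 + 0)) :=
      (tendsto_const_div_atTop_nhds_zero_nat _).add (err_small hs)
    rw [add_zero] at h3
    refine squeeze_zero_norm' ?_ h3
    filter_upwards [eventually_ge_atTop n₀] with x hx
    rw [Real.norm_eq_abs, abs_div, Nat.abs_cast, ← add_div]
    refine div_le_div_of_nonneg_right ?_ (by positivity)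
    rw [← Finset.sum_range_add_sum_Ico _ hx, ← hK]
    refine (abs_add_le _ _).trans ?_
    have h4 := SS_bound f hn₀ x hx
    have h5 := GS_bound f (u x) x
    have h6 := EE_le (u x)
    have h7 : |∑ n ∈ Finset.Ico n₀ x, (aw f (u n) n - CC f (u n))| ≤ EE (u x) + BB (u x) := by
      calc |∑ n ∈ Finset.Ico n₀ x, (aw f (u n) n - CC f (u n))|
          = |(∑ n ∈ Finset.Ico n₀ x, (aw f (u n) n - CC f (u n)) - GS f (u x) x) + GS f (u x) x| := by
            congr 1; ring
        _ ≤ _ := (abs_add_le _ _).trans (add_le_add h4 h5)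
    linarith
  have h3 := h2.add h1
  rw [zero_add] at h3
  refine h3.congr fun x => ?_
  rw [← add_div, ← Finset.sum_add_distrib]
  congr 1
  exact Finset.sum_congr rfl fun n _ => by ring

end Pool.Agent.U462.RM
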