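import Mathlib
import Pool.Agent.U462.RM.Grow

set_option autoImplicit false

/-! # Logarithmic weights -/

open MeasureTheory Filter Set Polynomial
open scoped ENNReal Topology

namespace Pool.Agent.U462.RM

open Pool.Agent.R528.RM

lemma TT_le {a : ℕ → ℝ} {K : ℝ} (hK : ∀ x : ℕ, ∑ n ∈ Finset.range x, a n ≤ K * x) (ha : ∀ n, 0 ≤ a n) (x : ℕ)
    (hx : 1 ≤ x) : ∑ n ∈ Finset.Ico 1 x, a n * (Real.log x - Real.log n) ≤ 2 * K * x := by
  have hK0 : 0 ≤ K := by
    have := hK 1
    have h2 := ha 0
    simp at this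
    linarith
  induction x, hx using Nat.le_induction with
  | base => simp; exact hK0
  | succ x hx ih =>
    have hx' : (1 : ℝ) ≤ x := by exact_mod_cast hx
    have e : ∑ n ∈ Finset.Ico 1 (x + 1), a n * (Real.log ((x + 1 : ℕ) : ℝ) - Real.log n) =
        ∑ n ∈ Finset.Ico 1 x, a n * (Real.log x - Real.log n) +
        (Real.log ((x + 1 : ℕ) : ℝ) - Real.log x) * ∑ n ∈ Finset.Ico 1 (x + 1), a n := by
      rw [Finset.mul_sum, Finset.sum_Ico_succ_top hx, Finset.sum_Ico_succ_top hx, ← add_assoc,
        ← Finset.sum_add_distrib]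
      congr 1
      · exact Finset.sum_congr rfl fun n _ => by ring
      · ring
    have h1 : Real.log ((x + 1 : ℕ) : ℝ) - Real.log x ≤ 1 / x := by
      rw [← Real.log_div (by positivity) (by positivity)]
      have h2 := Real.log_le_sub_one_of_pos (show 0 < ((x + 1 : ℕ) : ℝ) / x by positivity)
      have h3 : ((x + 1 : ℕ) : ℝ) / x - 1 = 1 / x := by
        push_cast
        field_simp
        ring
      linarith
    have h4 : ∑ n ∈ Finset.Ico 1 (x + 1), a n ≤ K * ((x : ℝ) + 1) := by
      have h5 := hK (x + 1)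
      have h6 : ∑ n ∈ Finset.Ico 1 (x + 1), a n ≤ ∑ n ∈ Finset.range (x + 1), a n :=
        Finset.sum_le_sum_of_subset_of_nonneg (fun k hk => by
          rw [Finset.mem_Ico] at hk; rw [Finset.mem_range]; exact hk.2) fun k _ _ => ha k
      push_cast at h5
      linarith
    have h7 : 0 ≤ ∑ n ∈ Finset.Ico 1 (x + 1), a n := Finset.sum_nonneg fun n _ => ha n
    have h8 : (Real.log ((x + 1 : ℕ) : ℝ) - Real.log x) * ∑ n ∈ Finset.Ico 1 (x + 1), a n ≤
        (1 / x) * (K * ((x : ℝ) + 1)) := by
      have : 0 ≤ 1 / (x : ℝ) := by positivity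
      exact mul_le_mul h1 h4 h7 this
    have h9 : (1 / (x : ℝ)) * (K * ((x : ℝ) + 1)) ≤ 2 * K := by
      rw [one_div, inv_mul_le_iff₀ (by linarith)]
      nlinarith
    rw [e]
    push_cast at h8 ⊢
    linarith

theorem weight_log {a b : ℕ → ℝ} {C β K0 : ℝ} (ha : ∀ n, 0 ≤ a n) (hb : ∀ n, |b n| ≤ K0)
    (h : Tendsto (fun n : ℕ => b n * Real.log n) atTop (𝓝 β))
    (hC : Tendsto (fun x : ℕ => (∑ n ∈ Finset.range x, a n) / x) atTop (𝓝 C)) :
    Tendsto (fun x : ℕ => (∑ n ∈ Finset.range x, a n * b n) * Real.log x / x) atTop (𝓝 (C * β)) := by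
  obtain ⟨K, hK⟩ : ∃ K : ℝ, ∀ x : ℕ, ∑ n ∈ Finset.range x, a n ≤ K * x := by
    obtain ⟨K, hK⟩ := hC.bddAbove_range
    refine ⟨K, fun x => ?_⟩
    rcases Nat.eq_zero_or_pos x with rfl | hx
    · simp
    · have hx' : (0 : ℝ) < x := by exact_mod_cast hx
      have := hK ⟨x, rfl⟩
      simp only at this
      rwa [div_le_iff₀ hx'] at this
  have hK0 : 0 ≤ K := by
    have := hK 1
    have h2 := ha 0
    simp at this
    linarith
  have hb0 : Tendsto b atTop (𝓝 0) := by
    refine (h.div_atTop tendsto_log).congr' ?_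
    filter_upwards [tendsto_log.eventually_gt_atTop 0] with n hn
    field_simp
  have hK00 : 0 ≤ K0 := (abs_nonneg _).trans (hb 0)
  have key : Tendsto (fun x : ℕ => (∑ n ∈ Finset.range x, a n * (b n * Real.log x - β)) / x) atTop (𝓝 0) := by
    rw [Metric.tendsto_atTop]
    intro ε hε
    obtain ⟨η, hη, hηK⟩ : ∃ η : ℝ, 0 < η ∧ 3 * K * η < ε / 2 := by
      refine ⟨ε / (8 * (K + 1)), by positivity, ?_⟩
      rw [← sub_pos]
      have e : ε / 2 - 3 * K * (ε / (8 * (K + 1))) = ε * (4 * (K + 1) - 3 * K) / (8 * (K + 1)) := by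
        field_simp
        ring
      rw [e]
      have : 0 < 4 * (K + 1) - 3 * K := by linarith
      positivity
    have h1 : ∀ᶠ n : ℕ in atTop, |b n * Real.log n - β| ≤ η ∧ |b n| ≤ η ∧ 1 ≤ n := by
      have g1 := (Metric.tendsto_nhds.1 h) η hη
      have g2 := (Metric.tendsto_nhds.1 hb0) η hη
      filter_upwards [g1, g2, eventually_ge_atTop 1] with n k1 k2 k3
      rw [Real.dist_eq] at k1 k2
      rw [sub_zero] at k2
      exact ⟨k1.le, k2.le, k3⟩
    obtain ⟨N, hN⟩ := eventually_atTop.1 h1
    have hN1 : 1 ≤ N ∨ N = 0 := by omega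
    obtain ⟨M, hM⟩ : ∃ M : ℕ, M = max N 1 := ⟨_, rfl⟩
    have hMN : N ≤ M := by omega
    have hM1 : 1 ≤ M := by omega
    have hlim : Tendsto (fun x : ℕ => (∑ n ∈ Finset.range M, a n) * ((K0 * Real.log x + |β|) / x)) atTop
        (𝓝 ((∑ n ∈ Finset.range M, a n) * 0)) := by
      refine Tendsto.const_mul _ ?_
      have g1 : Tendsto (fun x : ℕ => Real.log (x : ℝ) / x) atTop (𝓝 0) := by
        have h20 : Tendsto (fun x : ℝ => Real.log x ^ (1 : ℝ) / x ^ (1 : ℝ)) atTop (𝓝 0) :=
          (isLittleO_log_rpow_rpow_atTop (1 : ℝ) one_pos).tendsto_div_nhds_zero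
        exact (h20.comp tendsto_natCast_atTop_atTop).congr fun x => by simp
      have g2 : Tendsto (fun x : ℕ => K0 * (Real.log (x : ℝ) / x) + |β| / x) atTop (𝓝 (K0 * 0 + 0)) :=
        (g1.const_mul K0).add (tendsto_const_div_atTop_nhds_zero_nat _)
      rw [mul_zero, zero_add] at g2
      refine g2.congr fun x => ?_
      ring
    rw [mul_zero] at hlim
    obtain ⟨X, hX⟩ := eventually_atTop.1 ((Metric.tendsto_nhds.1 hlim) (ε / 2) (by positivity))
    refine ⟨max X M, fun x hx => ?_⟩
    have hxX := (le_max_left _ _).trans hx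
    have hxM : M ≤ x := (le_max_right _ _).trans hx
    have hx1 : 1 ≤ x := by omega
    have hx' : (1 : ℝ) ≤ x := by exact_mod_cast hx1
    have hL : 0 ≤ Real.log x := Real.log_natCast_nonneg x
    have g1 := hX x hxX
    rw [Real.dist_eq, sub_zero] at g1
    rw [Real.dist_eq, sub_zero, abs_div, Nat.abs_cast]
    have g2 : |∑ n ∈ Finset.range x, a n * (b n * Real.log x - β)| ≤
        (∑ n ∈ Finset.range M, a n) * (K0 * Real.log x + |β|) + 3 * K * η * x := by
      rw [← Finset.sum_range_add_sum_Ico _ hxM]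
      refine (abs_add_le _ _).trans (add_le_add ?_ ?_)
      · rw [Finset.sum_mul]
        refine (Finset.abs_sum_le_sum_abs _ _).trans (Finset.sum_le_sum fun n _ => ?_)
        rw [abs_mul, abs_of_nonneg (ha n)]
        refine mul_le_mul_of_nonneg_left ?_ (ha n)
        refine (abs_sub _ _).trans ?_
        rw [abs_mul, abs_of_nonneg hL]
        have := mul_le_mul_of_nonneg_right (hb n) hL
        linarith
      · have g3 : |∑ n ∈ Finset.Ico M x, a n * (b n * Real.log x - β)| ≤
            ∑ n ∈ Finset.Ico M x, (η * a n + η * (a n * (Real.log x - Real.log n))) := by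
          refine (Finset.abs_sum_le_sum_abs _ _).trans (Finset.sum_le_sum fun n hn => ?_)
          rw [Finset.mem_Ico] at hn
          obtain ⟨k1, k2, k3⟩ := hN n (hMN.trans hn.1)
          have k4 : Real.log n ≤ Real.log x :=
            Real.log_le_log (by exact_mod_cast k3) (by exact_mod_cast hn.2.le)
          have k5 : |b n * Real.log x - β| ≤ η + η * (Real.log x - Real.log n) := by
            have e : b n * Real.log x - β = (b n * Real.log n - β) + b n * (Real.log x - Real.log n) := by ring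
            rw [e]
            refine (abs_add_le _ _).trans (add_le_add k1 ?_)
            rw [abs_mul, abs_of_nonneg (sub_nonneg.2 k4)]
            exact mul_le_mul_of_nonneg_right k2 (sub_nonneg.2 k4)
          rw [abs_mul, abs_of_nonneg (ha n)]
          have := mul_le_mul_of_nonneg_left k5 (ha n)
          linarith
        refine g3.trans ?_
        rw [Finset.sum_add_distrib, ← Finset.mul_sum, ← Finset.mul_sum]
        have k6 : ∑ n ∈ Finset.Ico M x, a n ≤ K * x := by
          refine le_trans (Finset.sum_le_sum_of_subset_of_nonneg (fun k hk => ?_) fun k _ _ => ha k) (hK x)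
          rw [Finset.mem_Ico] at hk; rw [Finset.mem_range]; exact hk.2
        have k7 : ∑ n ∈ Finset.Ico M x, a n * (Real.log x - Real.log n) ≤ 2 * K * x := by
          refine le_trans (Finset.sum_le_sum_of_subset_of_nonneg (fun k hk => ?_) fun k hk _ => ?_) (TT_le hK ha x hx1)
          · rw [Finset.mem_Ico] at *; omega
          · rw [Finset.mem_Ico] at hk
            have k8 : Real.log k ≤ Real.log x :=
              Real.log_le_log (by exact_mod_cast hk.1) (by exact_mod_cast hk.2.le)
            exact mul_nonneg (ha k) (sub_nonneg.2 k8)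
        have k9 := mul_le_mul_of_nonneg_left k6 hη.le
        have k10 := mul_le_mul_of_nonneg_left k7 hη.le
        linarith
    have g4 : (∑ n ∈ Finset.range M, a n) * ((K0 * Real.log x + |β|) / x) < ε / 2 := (le_abs_self _).trans_lt g1
    calc |∑ n ∈ Finset.range x, a n * (b n * Real.log x - β)| / x
        ≤ ((∑ n ∈ Finset.range M, a n) * (K0 * Real.log x + |β|) + 3 * K * η * x) / x :=
          div_le_div_of_nonneg_right g2 (by linarith)
      _ = (∑ n ∈ Finset.range M, a n) * ((K0 * Real.log x + |β|) / x) + 3 * K * η := by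
          field_simp
      _ < ε := by linarith
  have h5 := key.add (hC.mul_const β)
  rw [zero_add] at h5
  refine h5.congr fun x => ?_
  rw [div_mul_eq_mul_div, ← add_div]
  congr 1
  rw [Finset.sum_mul, Finset.sum_mul, ← Finset.sum_add_distrib]
  exact Finset.sum_congr rfl fun n _ => by ring

end Pool.Agent.U462.RM
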