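import Mathlib
import Pool.Agent.U462.RM.GrowLog

set_option autoImplicit false
set_option linter.unusedSectionVars false

/-! # The law of Bateman and Horn for one polynomial in every sequential model with a growing sieve -/

open MeasureTheory Filter Set Polynomial
open scoped ENNReal Topology

namespace Pool.Agent.U462.RM

open Pool.Agent.R528.RM

/-- `m` has no prime factor at most `z m` -/
def Rough (z : ℕ → ℕ) (m : ℕ) : Prop := ∀ q : ℕ, q.Prime → q ≤ z m → ¬ q ∣ m

open Classical in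
/-- the density, at most one -/
noncomputable def rho1 (z : ℕ → ℕ) (m : ℕ) : ℝ := if Rough z m then min 1 (W (z m) / Real.log m) else 0

lemma rho1_bounds (z : ℕ → ℕ) (n : ℕ) : 0 ≤ rho1 z n ∧ rho1 z n ≤ 1 := by
  unfold rho1
  have h1 : 0 ≤ W (z n) := zero_le_one.trans (W_ge _)
  have h2 := Real.log_natCast_nonneg n
  split_ifs
  · exact ⟨by positivity, min_le_left _ _⟩
  · exact ⟨le_rfl, zero_le_one⟩

lemma W_small {z : ℕ → ℕ} (hs : Tendsto (fun n : ℕ => (z n : ℝ) / Real.log n) atTop (𝓝 0)) :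
    ∀ᶠ n : ℕ in atTop, W (z n) / Real.log n < 1 := by
  filter_upwards [hs.eventually (gt_mem_nhds (show (0 : ℝ) < 1 / 2 by norm_num)),
    tendsto_log.eventually_gt_atTop 2] with n g1 g2
  rw [div_lt_iff₀ (by linarith)] at g1
  rw [div_lt_one (by linarith)]
  have := W_le (z n)
  linarith

lemma rough_iff (z : ℕ → ℕ) (m : ℕ) : Rough z m ↔ Nat.Coprime m (PM (z m)) := by
  unfold Rough PM
  rw [Nat.coprime_prod_right_iff]
  constructor
  · intro h p hp
    have hpp := PS_prime hp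
    have hle : p ≤ z m := by
      have := (Finset.mem_filter.1 hp).1
      rw [Finset.mem_range] at this
      omega
    rw [Nat.coprime_comm]
    exact (Nat.Prime.coprime_iff_not_dvd hpp).2 (h p hpp hle)
  · intro h q hq hle hd
    have h1 := h q (Finset.mem_filter.2 ⟨Finset.mem_range.2 (by omega), hq⟩)
    rw [Nat.coprime_comm] at h1
    exact (Nat.Prime.coprime_iff_not_dvd hq).1 h1 hd

section

variable {Ω : Type} {m0 : MeasurableSpace Ω} {μ : Measure Ω} [IsProbabilityMeasure μ]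
  {ℱ : Filtration ℕ m0} {A : ℕ → Set Ω}

/-- the densities follow the profile -/
lemma profile (z : ℕ → ℕ) (hV : ∀ᶠ n : ℕ in atTop, W (z n) / Real.log n < 1)
    (hcop : ∀ n, ¬ Rough z n → A n = ∅)
    (hd : ∀ᵐ ω ∂μ, Tendsto (fun n : ℕ => dens μ ℱ A n ω * Real.log n / W (z (n + 1)))
      (atTop ⊓ 𝓟 {n : ℕ | Rough z (n + 1)}) (𝓝 1)) :
    ∀ᵐ ω ∂μ, ∀ ε : ℝ, 0 < ε → ∀ᶠ n : ℕ in atTop,
      |dens μ ℱ A n ω - rho1 z (n + 1)| ≤ ε * rho1 z (n + 1) := by
  have hz' : ∀ᵐ ω ∂μ, ∀ n, ¬ Rough z (n + 1) → dens μ ℱ A n ω = 0 := by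
    rw [ae_all_iff]
    intro n
    by_cases h : Rough z (n + 1)
    · exact Eventually.of_forall fun ω h2 => absurd h h2
    · have h1 : dens μ ℱ A n =ᵐ[μ] 0 := by
        unfold dens
        rw [hcop _ h, Set.indicator_empty]
        rw [show (fun _ : Ω => (0 : ℝ)) = 0 from rfl, condExp_zero]
      filter_upwards [h1] with ω hω _
      exact hω
  filter_upwards [hz', hd] with ω hω1 hω2 ε hε
  have h1 : Tendsto (fun n : ℕ => dens μ ℱ A n ω * Real.log ((n + 1 : ℕ) : ℝ) / W (z (n + 1)))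
      (atTop ⊓ 𝓟 {n : ℕ | Rough z (n + 1)}) (𝓝 1) := by
    have h2 := hω2.mul (log_succ_ratio.mono_left (inf_le_left : atTop ⊓ 𝓟 {n : ℕ | Rough z (n + 1)} ≤ atTop))
    rw [mul_one] at h2
    refine h2.congr' ?_
    apply Filter.Eventually.filter_mono inf_le_left
    filter_upwards [eventually_gt_atTop 1] with n hn
    have hn' : (1 : ℝ) < n := by exact_mod_cast hn
    have hl : 0 < Real.log (n : ℝ) := Real.log_pos hn'
    field_simp
  have h2 := (Metric.tendsto_nhds.1 h1) ε hε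
  rw [eventually_inf_principal] at h2
  have h3 : ∀ᶠ n : ℕ in atTop, W (z (n + 1)) / Real.log ((n + 1 : ℕ) : ℝ) < 1 :=
    (tendsto_add_atTop_nat 1).eventually hV
  filter_upwards [h2, h3, eventually_gt_atTop 2] with n hn hn2 hn3
  by_cases hcp : Rough z (n + 1)
  · have h4 := hn hcp
    have hn3' : (2 : ℝ) < n := by exact_mod_cast hn3
    have hl : 0 < Real.log ((n + 1 : ℕ) : ℝ) := Real.log_pos (by push_cast; linarith)
    have hV : 0 < W (z (n + 1)) := lt_of_lt_of_le one_pos (W_ge _)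
    have e1 : rho1 z (n + 1) = W (z (n + 1)) / Real.log ((n + 1 : ℕ) : ℝ) := by
      unfold rho1
      rw [if_pos hcp, min_eq_right hn2.le]
    rw [e1]
    rw [Real.dist_eq] at h4
    have e2 : dens μ ℱ A n ω - W (z (n + 1)) / Real.log ((n + 1 : ℕ) : ℝ) =
        (dens μ ℱ A n ω * Real.log ((n + 1 : ℕ) : ℝ) / W (z (n + 1)) - 1) * (W (z (n + 1)) / Real.log ((n + 1 : ℕ) : ℝ)) := by
      field_simp
    have h5 : 0 < W (z (n + 1)) / Real.log ((n + 1 : ℕ) : ℝ) := by positivity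
    rw [e2, abs_mul, abs_of_pos h5]
    exact mul_le_mul_of_nonneg_right h4.le h5.le
  · rw [hω1 n hcp]
    have e1 : rho1 z (n + 1) = 0 := by
      unfold rho1
      rw [if_neg hcp]
    rw [e1]
    simp

end

lemma logpv_top (f : ℤ[X]) (hd : 0 < f.natDegree) (hl : 0 < f.leadingCoeff) :
    Tendsto (fun n : ℕ => Real.log (pv f n)) atTop atTop := by
  have hdpos : (0 : ℝ) < f.natDegree := by exact_mod_cast hd
  have h6 := (pv_log f hl).pos_mul_atTop hdpos tendsto_log
  refine h6.congr' ?_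
  filter_upwards [eventually_gt_atTop 1] with n hn
  have hn' : (1 : ℝ) < n := by exact_mod_cast hn
  have hl : 0 < Real.log (n : ℝ) := Real.log_pos hn'
  field_simp

lemma pv_top (f : ℤ[X]) (hd : 0 < f.natDegree) (hl : 0 < f.leadingCoeff) : Tendsto (pv f) atTop atTop := by
  have h1 := logpv_top f hd hl
  rw [tendsto_atTop]
  intro b
  filter_upwards [h1.eventually_gt_atTop (Real.log b), h1.eventually_gt_atTop 0] with n hn hn0
  by_contra h
  push Not at h
  have h2 : (0 : ℝ) < pv f n := by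
    by_contra h3
    have h4 : (pv f n : ℝ) = 0 := le_antisymm (not_lt.1 h3) (Nat.cast_nonneg _)
    rw [h4, Real.log_zero] at hn0
    exact lt_irrefl _ hn0
  have h3 : Real.log (pv f n) ≤ Real.log b := Real.log_le_log h2 (by exact_mod_cast h.le)
  linarith

/-- the sum of the densities over the values of a polynomial -/
theorem rho_sum (f : ℤ[X]) (hd : 0 < f.natDegree) (hl : 0 < f.leadingCoeff) {z : ℕ → ℕ} (hz : Monotone z)
    (hz1 : Tendsto z atTop atTop) (hs : Tendsto (fun n : ℕ => (z n : ℝ) / Real.log n) atTop (𝓝 0)) {C : ℝ}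
    (hC : Tendsto (CC f) atTop (𝓝 C)) :
    Tendsto (fun x : ℕ => (∑ n ∈ Finset.range x, rho1 z (pv f n)) * Real.log x / x) atTop
      (𝓝 (C * (f.natDegree : ℝ)⁻¹)) := by
  classical
  have hdpos : (0 : ℝ) < f.natDegree := by exact_mod_cast hd
  have hpv := pv_top f hd hl
  have hlpv := logpv_top f hd hl
  set u : ℕ → ℕ := fun n => z (pv f n) with hu
  set b : ℕ → ℝ := fun n => (Real.log (pv f n))⁻¹ with hb
  have hu0 : ∀ᶠ n in atTop, u n ≤ u (n + 1) := by
    filter_upwards [pv_mono f hd hl] with n hn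
    exact hz hn.le
  have hu1 : Tendsto u atTop atTop := hz1.comp hpv
  have hu2 : Tendsto (fun n : ℕ => (u n : ℝ) / Real.log n) atTop (𝓝 0) := by
    have h1 := (hs.comp hpv).mul (pv_log f hl)
    rw [zero_mul] at h1
    refine h1.congr' ?_
    filter_upwards [hlpv.eventually_gt_atTop 0] with n hn
    simp only [Function.comp_apply, hu]
    field_simp
  have ha := avg_aw f hu0 hu1 hu2 hC
  have hb1 : ∀ n, |b n| ≤ 2 := by
    intro n
    simp only [hb]
    have h0 := Real.log_natCast_nonneg (pv f n)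
    rw [abs_of_nonneg (by positivity)]
    rcases Nat.lt_or_ge (pv f n) 2 with h | h
    · have : Real.log (pv f n) = 0 := by
        interval_cases (pv f n) <;> simp
      rw [this]
      norm_num
    · have h1 : Real.log 2 ≤ Real.log (pv f n) := Real.log_le_log (by norm_num) (by exact_mod_cast h)
      have h2 := Real.log_two_gt_d9
      rw [inv_le_comm₀ (by linarith) (by norm_num)]
      linarith
  have hb2 : Tendsto (fun n : ℕ => b n * Real.log n) atTop (𝓝 (f.natDegree : ℝ)⁻¹) := by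
    have h4 := (pv_log f hl).inv₀ hdpos.ne'
    refine h4.congr fun n => ?_
    simp only [hb]
    rw [inv_div, div_eq_inv_mul]
  have h1 := weight_log (fun n => (aw_bounds f (u n) n).1) hb1 hb2 ha
  -- the terms agree eventually
  have hg : ∀ᶠ n : ℕ in atTop, rho1 z (pv f n) = aw f (u n) n * b n := by
    filter_upwards [ev_pos_int f hl, hpv.eventually (W_small hs)] with n hn hn2
    have h2 : ((pv f n : ℕ) : ℤ) = f.eval (n : ℤ) := Int.toNat_of_nonneg hn.le
    have h3 : good {f} (PM (u n)) n ↔ Rough z (pv f n) := by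
      rw [rough_iff]
      unfold good
      simp only [Finset.mem_singleton, forall_eq]
      rw [← h2, Int.gcd_natCast_natCast]
    unfold rho1 aw
    by_cases h : Rough z (pv f n)
    · rw [if_pos h, if_pos (h3.2 h), min_eq_right hn2.le, div_eq_mul_inv]
    · rw [if_neg h, if_neg (fun h' => h (h3.1 h')), zero_mul]
  obtain ⟨n₀, hn₀⟩ := eventually_atTop.1 hg
  have hlim : Tendsto (fun x : ℕ => (∑ n ∈ Finset.range n₀, (rho1 z (pv f n) - aw f (u n) n * b n)) * (Real.log x / x)) atTop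
      (𝓝 ((∑ n ∈ Finset.range n₀, (rho1 z (pv f n) - aw f (u n) n * b n)) * 0)) := by
    refine Tendsto.const_mul _ ?_
    have h20 : Tendsto (fun x : ℝ => Real.log x ^ (1 : ℝ) / x ^ (1 : ℝ)) atTop (𝓝 0) :=
      (isLittleO_log_rpow_rpow_atTop (1 : ℝ) one_pos).tendsto_div_nhds_zero
    exact (h20.comp tendsto_natCast_atTop_atTop).congr fun x => by simp
  rw [mul_zero] at hlim
  have h10 := h1.add hlim
  rw [add_zero] at h10
  refine h10.congr' ?_
  filter_upwards [eventually_ge_atTop n₀] with x hx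
  have h11 : ∑ n ∈ Finset.range x, rho1 z (pv f n) = ∑ n ∈ Finset.range x, aw f (u n) n * b n +
      ∑ n ∈ Finset.range n₀, (rho1 z (pv f n) - aw f (u n) n * b n) := by
    have : ∑ n ∈ Finset.range x, (rho1 z (pv f n) - aw f (u n) n * b n) =
        ∑ n ∈ Finset.range n₀, (rho1 z (pv f n) - aw f (u n) n * b n) := by
      rw [← Finset.sum_range_add_sum_Ico _ hx, Finset.sum_eq_zero (s := Finset.Ico n₀ x) fun n hn => ?_, add_zero]
      rw [hn₀ n (Finset.mem_Ico.1 hn).1, sub_self]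
    rw [← this, Finset.sum_sub_distrib]
    ring
  rw [h11]
  ring

/-- the values which are members, in Mathlib words -/
noncomputable def valCount (S : Set ℕ) (f : ℤ[X]) (x : ℕ) : ℕ :=
  {n : ℕ | n < x ∧ ∃ a ∈ S, (a : ℤ) = f.eval (n : ℤ)}.ncard

section

variable {Ω : Type} {m0 : MeasurableSpace Ω} {μ : Measure Ω} [IsProbabilityMeasure μ]
  {ℱ : Filtration ℕ m0} {A : ℕ → Set Ω}

/-- the law for one polynomial -/
theorem law_one (hA : ∀ n, MeasurableSet[ℱ n] (A n)) {z : ℕ → ℕ} (hz : Monotone z)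
    (hz1 : Tendsto z atTop atTop) (hs : Tendsto (fun n : ℕ => (z n : ℝ) / Real.log n) atTop (𝓝 0))
    (hcop : ∀ n, ¬ Rough z n → A n = ∅)
    (hd : ∀ᵐ ω ∂μ, Tendsto (fun n : ℕ => dens μ ℱ A n ω * Real.log n / W (z (n + 1)))
      (atTop ⊓ 𝓟 {n : ℕ | Rough z (n + 1)}) (𝓝 1))
    (f : ℤ[X]) (hfd : 0 < f.natDegree) (hfl : 0 < f.leadingCoeff) {C : ℝ} (hC0 : 0 < C)
    (hC : Tendsto (CC f) atTop (𝓝 C)) :
    ∀ᵐ ω ∂μ, Tendsto (fun x : ℕ => (valCount {a | ω ∈ A a} f x : ℝ) * Real.log x / x) atTop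
      (𝓝 (C / f.natDegree)) := by
  classical
  have hprof := profile (μ := μ) z (W_small hs) hcop hd
  have hsum := rho_sum f hfd hfl hz hz1 hs hC
  have hdpos : (0 : ℝ) < f.natDegree := by exact_mod_cast hfd
  have hCd : 0 < C * (f.natDegree : ℝ)⁻¹ := by positivity
  have hxl : Tendsto (fun x : ℕ => (x : ℝ) / Real.log x) atTop atTop := by
    have h20 : Tendsto (fun x : ℝ => Real.log x ^ (1 : ℝ) / x ^ (1 : ℝ)) atTop (𝓝 0) :=
      (isLittleO_log_rpow_rpow_atTop (1 : ℝ) one_pos).tendsto_div_nhds_zero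
    have h21 : Tendsto (fun x : ℕ => Real.log x / x) atTop (𝓝 0) :=
      (h20.comp tendsto_natCast_atTop_atTop).congr fun x => by simp
    have h22 : Tendsto (fun x : ℕ => Real.log x / (x : ℝ)) atTop (𝓝[>] 0) := by
      rw [tendsto_nhdsWithin_iff]
      refine ⟨h21, ?_⟩
      filter_upwards [eventually_gt_atTop 1] with x hx
      have hx' : (1 : ℝ) < x := by exact_mod_cast hx
      have := Real.log_pos hx'
      exact div_pos this (by linarith)
    refine h22.inv_tendsto_nhdsGT_zero.congr fun x => ?_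
    simp
  have hU : Tendsto (fun x : ℕ => ∑ n ∈ Finset.range x, ∏ i ∈ ({()} : Finset Unit), rho1 z ((fun _ : Unit => pv f) i n))
      atTop atTop := by
    have h1 := hsum.pos_mul_atTop hCd hxl
    refine h1.congr' ?_
    filter_upwards [eventually_gt_atTop 1] with x hx
    have hx' : (1 : ℝ) < x := by exact_mod_cast hx
    have hlx := Real.log_pos hx'
    simp only [Finset.prod_singleton]
    field_simp
  have hgen := general_final (μ := μ) hA (rho1 z) (rho1_bounds z) hprof ({()} : Finset Unit)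
    (fun _ : Unit => pv f) (fun _ _ => pv_mono f hfd hfl) (fun i _ j _ hij => absurd (Subsingleton.elim i j) hij) hU
  filter_upwards [hgen] with ω hω
  simp only [Finset.prod_singleton, Finset.mem_singleton, forall_const, forall_eq] at hω hU
  have h2 := hω.mul hsum
  rw [one_mul] at h2
  have h3 : Tendsto (fun x : ℕ => ({n : ℕ | n < x ∧ ω ∈ A (pv f n)}.ncard : ℝ) * Real.log x / x) atTop
      (𝓝 (C / f.natDegree)) := by
    rw [div_eq_mul_inv C]
    refine h2.congr' ?_
    filter_upwards [hU.eventually_gt_atTop 0] with x hx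
    field_simp
  -- the two ways of counting
  obtain ⟨n₀, hn₀⟩ := eventually_atTop.1 (ev_pos_int f hfl)
  have h5 : ∀ x, |(valCount {a | ω ∈ A a} f x : ℝ) - ({n : ℕ | n < x ∧ ω ∈ A (pv f n)}.ncard : ℝ)| ≤ n₀ := by
    intro x
    have hfin : ∀ p : ℕ → Prop, {n : ℕ | n < x ∧ p n}.Finite := fun p => (finite_Iio x).subset fun n hn => hn.1
    have key : ∀ p q : ℕ → Prop, (∀ n, n₀ ≤ n → p n → q n) →
        {n : ℕ | n < x ∧ p n}.ncard ≤ {n : ℕ | n < x ∧ q n}.ncard + n₀ := by
      intro p q h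
      have h1 : {n : ℕ | n < x ∧ p n} ⊆ {n : ℕ | n < x ∧ q n} ∪ Iio n₀ := by
        rintro n ⟨g1, g2⟩
        rcases Nat.lt_or_ge n n₀ with g | g
        · exact Or.inr g
        · exact Or.inl ⟨g1, h n g g2⟩
      refine (ncard_le_ncard h1 ((hfin q).union (finite_Iio n₀))).trans ((ncard_union_le _ _).trans ?_)
      rw [show (Iio n₀ : Set ℕ).ncard = n₀ by
        rw [← Finset.coe_Iio, Set.ncard_coe_finset, Nat.card_Iio]]
    have hiff : ∀ n, n₀ ≤ n → ((∃ a ∈ {a | ω ∈ A a}, (a : ℤ) = f.eval (n : ℤ)) ↔ ω ∈ A (pv f n)) := by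
      intro n hn
      have h8 := hn₀ n hn
      have h9 : ((pv f n : ℕ) : ℤ) = f.eval (n : ℤ) := Int.toNat_of_nonneg h8.le
      constructor
      · rintro ⟨a, ha, ha2⟩
        have : a = pv f n := by
          have : (a : ℤ) = (pv f n : ℤ) := by rw [ha2, h9]
          exact_mod_cast this
        rwa [← this]
      · intro h
        exact ⟨pv f n, h, h9⟩
    have k1 := key _ _ fun n hn => (hiff n hn).1
    have k2 := key _ _ fun n hn => (hiff n hn).2
    unfold valCount
    rw [abs_le]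
    have k1' : (({n : ℕ | n < x ∧ ∃ a ∈ {a | ω ∈ A a}, (a : ℤ) = f.eval (n : ℤ)}.ncard : ℕ) : ℝ) ≤
        ({n : ℕ | n < x ∧ ω ∈ A (pv f n)}.ncard : ℝ) + n₀ := by exact_mod_cast k1
    have k2' : (({n : ℕ | n < x ∧ ω ∈ A (pv f n)}.ncard : ℕ) : ℝ) ≤
        ({n : ℕ | n < x ∧ ∃ a ∈ {a | ω ∈ A a}, (a : ℤ) = f.eval (n : ℤ)}.ncard : ℝ) + n₀ := by exact_mod_cast k2
    constructor <;> linarith
  have h6 : Tendsto (fun x : ℕ => ((valCount {a | ω ∈ A a} f x : ℝ) - ({n : ℕ | n < x ∧ ω ∈ A (pv f n)}.ncard : ℝ)) *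
      (Real.log x / x)) atTop (𝓝 0) := by
    have h20 : Tendsto (fun x : ℝ => Real.log x ^ (1 : ℝ) / x ^ (1 : ℝ)) atTop (𝓝 0) :=
      (isLittleO_log_rpow_rpow_atTop (1 : ℝ) one_pos).tendsto_div_nhds_zero
    have h21 : Tendsto (fun x : ℕ => (n₀ : ℝ) * (Real.log x / x)) atTop (𝓝 (n₀ * 0)) :=
      ((h20.comp tendsto_natCast_atTop_atTop).congr fun x => by simp).const_mul _
    rw [mul_zero] at h21
    refine squeeze_zero_norm (fun x => ?_) h21
    have hL := Real.log_natCast_nonneg x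
    rw [Real.norm_eq_abs, abs_mul, abs_of_nonneg (show 0 ≤ Real.log (x : ℝ) / x by positivity)]
    exact mul_le_mul_of_nonneg_right (h5 x) (by positivity)
  have h7 := h3.add h6
  rw [add_zero] at h7
  refine h7.congr fun x => ?_
  ring

/-- the law for all polynomials simultaneously -/
theorem law_all (hA : ∀ n, MeasurableSet[ℱ n] (A n)) {z : ℕ → ℕ} (hz : Monotone z)
    (hz1 : Tendsto z atTop atTop) (hs : Tendsto (fun n : ℕ => (z n : ℝ) / Real.log n) atTop (𝓝 0))
    (hcop : ∀ n, ¬ Rough z n → A n = ∅)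
    (hd : ∀ᵐ ω ∂μ, Tendsto (fun n : ℕ => dens μ ℱ A n ω * Real.log n / W (z (n + 1)))
      (atTop ⊓ 𝓟 {n : ℕ | Rough z (n + 1)}) (𝓝 1)) :
    ∀ᵐ ω ∂μ, ∀ f : ℤ[X], 0 < f.natDegree → 0 < f.leadingCoeff → ∀ C : ℝ, 0 < C →
      Tendsto (CC f) atTop (𝓝 C) →
      Tendsto (fun x : ℕ => (valCount {a | ω ∈ A a} f x : ℝ) * Real.log x / x) atTop
        (𝓝 (C / f.natDegree)) := by
  rw [ae_all_iff]
  intro f
  by_cases h : 0 < f.natDegree ∧ 0 < f.leadingCoeff ∧ ∃ C : ℝ, 0 < C ∧ Tendsto (CC f) atTop (𝓝 C)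
  · obtain ⟨h1, h2, C, h3, h4⟩ := h
    filter_upwards [law_one (μ := μ) hA hz hz1 hs hcop hd f h1 h2 h3 h4] with ω hω _ _ C' _ hC'
    rwa [tendsto_nhds_unique hC' h4]
  · exact Eventually.of_forall fun ω h1 h2 C h3 h4 => absurd ⟨h1, h2, C, h3, h4⟩ h

end

end Pool.Agent.U462.RM
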