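import Mathlib

set_option autoImplicit false

/-! # The logarithmic integral is asymptotic to `x / log x` -/

open Filter Set MeasureTheory
open scoped Topology

namespace Pool.Agent.U462.RM

lemma li_eq {x : ℝ} (hx : 2 ≤ x) : ∫ t in (2 : ℝ)..x, 1 / Real.log t =
    x / Real.log x - 2 / Real.log 2 + ∫ t in (2 : ℝ)..x, 1 / Real.log t ^ 2 := by
  have hpos : ∀ t ∈ uIcc 2 x, 0 < t ∧ 0 < Real.log t := by
    intro t ht
    rw [uIcc_of_le hx] at ht
    exact ⟨by linarith [ht.1], Real.log_pos (by linarith [ht.1])⟩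
  have h2 : ∀ t ∈ uIcc 2 x, HasDerivAt (fun t => t / Real.log t) (1 / Real.log t - 1 / Real.log t ^ 2) t := by
    intro t ht
    obtain ⟨ht0, hl⟩ := hpos t ht
    have := (hasDerivAt_id t).div (Real.hasDerivAt_log ht0.ne') hl.ne'
    refine this.congr_deriv ?_
    simp only [id_eq]
    field_simp
  have hl : ContinuousOn (fun t : ℝ => Real.log t) (uIcc 2 x) :=
    Real.continuousOn_log.mono fun t ht => (hpos t ht).1.ne'
  have c1 : ContinuousOn (fun t : ℝ => 1 / Real.log t) (uIcc 2 x) :=
    continuousOn_const.div hl fun t ht => (hpos t ht).2.ne'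
  have c2 : ContinuousOn (fun t : ℝ => 1 / Real.log t ^ 2) (uIcc 2 x) :=
    continuousOn_const.div (hl.pow 2) fun t ht => pow_ne_zero 2 (hpos t ht).2.ne'
  have i1 := c1.intervalIntegrable (μ := volume)
  have i2 := c2.intervalIntegrable (μ := volume)
  have h3 := intervalIntegral.integral_eq_sub_of_hasDerivAt h2 (i1.sub i2)
  rw [intervalIntegral.integral_sub i1 i2] at h3
  linarith

theorem li_ratio : Tendsto (fun x : ℝ => (∫ t in (2 : ℝ)..x, 1 / Real.log t) * Real.log x / x) atTop (𝓝 1) := by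
  have h1 : Tendsto (fun x : ℝ => (∫ t in (2 : ℝ)..x, 1 / Real.log t ^ 2) * (Real.log x / x)) atTop (𝓝 0) := by
    have g1 := Chebyshev.integral_one_div_log_sq_isBigO.mul (Asymptotics.isBigO_refl (fun x : ℝ => Real.log x / x) atTop)
    have g2 : Tendsto (fun x : ℝ => x / Real.log x ^ 2 * (Real.log x / x)) atTop (𝓝 0) := by
      have g3 : Tendsto (fun x : ℝ => (Real.log x)⁻¹) atTop (𝓝 0) :=
        tendsto_inv_atTop_zero.comp Real.tendsto_log_atTop
      refine g3.congr' ?_
      filter_upwards [eventually_gt_atTop 1] with x hx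
      have : 0 < Real.log x := Real.log_pos hx
      have : 0 < x := by linarith
      field_simp
    exact g1.trans_tendsto g2
  have h2 : Tendsto (fun x : ℝ => Real.log x / x) atTop (𝓝 0) := by
    have h20 : Tendsto (fun x : ℝ => Real.log x ^ (1 : ℝ) / x ^ (1 : ℝ)) atTop (𝓝 0) :=
      (isLittleO_log_rpow_rpow_atTop (1 : ℝ) one_pos).tendsto_div_nhds_zero
    exact h20.congr fun x => by simp
  have h3 : Tendsto (fun x : ℝ => 1 - 2 / Real.log 2 * (Real.log x / x) +
      (∫ t in (2 : ℝ)..x, 1 / Real.log t ^ 2) * (Real.log x / x)) atTop (𝓝 (1 - 2 / Real.log 2 * 0 + 0)) :=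
    ((tendsto_const_nhds).sub (h2.const_mul _)).add h1
  rw [mul_zero, sub_zero, add_zero] at h3
  refine h3.congr' ?_
  filter_upwards [eventually_ge_atTop 2] with x hx
  have hl : 0 < Real.log x := Real.log_pos (by linarith)
  have hx0 : 0 < x := by linarith
  rw [li_eq hx]
  field_simp

/-- a counting function asymptotic to `c x / log x` is asymptotic to `c` times the logarithmic integral -/
theorem li_transfer {P : ℕ → ℝ} {c : ℝ} (h : Tendsto (fun x : ℕ => P x * Real.log x / x) atTop (𝓝 c)) :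
    Tendsto (fun x : ℕ => P x / ∫ t in (2 : ℝ)..x, 1 / Real.log t) atTop (𝓝 c) := by
  have h1 := h.div (li_ratio.comp tendsto_natCast_atTop_atTop) one_ne_zero
  rw [div_one] at h1
  refine h1.congr' ?_
  filter_upwards [eventually_gt_atTop 1] with x hx
  have hx' : (1 : ℝ) < x := by exact_mod_cast hx
  have hl : 0 < Real.log x := Real.log_pos hx'
  have hx0 : (0 : ℝ) < x := by linarith
  change P x * Real.log x / x / ((∫ t in (2 : ℝ)..x, 1 / Real.log t) * Real.log x / x) = _
  rw [mul_div_assoc (P x), mul_div_assoc (∫ t in (2 : ℝ)..x, 1 / Real.log t),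
    mul_div_mul_right _ _ (show Real.log (x : ℝ) / x ≠ 0 by positivity)]

end Pool.Agent.U462.RM
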