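import Mathlib
import Pool.Agent.R528.RM.Final

set_option autoImplicit false

/-! # The random sieve of Hawkins and independent models satisfy the hypothesis of the second order law

`Y A n = ∏ (1 - 1/k)⁻¹` over the members `k ≤ n` of the random set.  In the sieve of Hawkins the
conditional probability of `n + 1` is `1 / Y A n`.  Then `Y A n - ∑ 1/k` is a martingale which is bounded
in `L²`, so that it converges. -/

open MeasureTheory Filter Set
open scoped Topology ENNReal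

namespace Pool.Agent.U462.RM

open Pool.Agent.R528.RM

variable {Ω : Type} {m0 : MeasurableSpace Ω} {μ : Measure Ω} [IsProbabilityMeasure μ]
  {ℱ : Filtration ℕ m0} {A : ℕ → Set Ω}

/-- the indicator of `k ∈ A` -/
noncomputable def J (A : ℕ → Set Ω) (k : ℕ) (ω : Ω) : ℝ := (A k).indicator (fun _ => (1 : ℝ)) ω

lemma J_cases (k : ℕ) (ω : Ω) : J A k ω = 1 ∨ J A k ω = 0 := by
  unfold J
  by_cases h : ω ∈ A k
  · left; simp [h]
  · right; simp [h]

lemma J_nonneg (k : ℕ) (ω : Ω) : 0 ≤ J A k ω := by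
  rcases J_cases (A := A) k ω with h | h
  · rw [h]; exact zero_le_one
  · rw [h]

lemma J_le (k : ℕ) (ω : Ω) : J A k ω ≤ 1 := by
  rcases J_cases (A := A) k ω with h | h
  · rw [h]
  · rw [h]; exact zero_le_one

/-- `∏ (1 - 1/k)⁻¹` over the members `k` of the random set with `2 ≤ k ≤ n` -/
noncomputable def Y (A : ℕ → Set Ω) (n : ℕ) (ω : Ω) : ℝ :=
  ∏ k ∈ Finset.Icc 2 n, (1 + J A k ω / ((k : ℝ) - 1))

lemma Y_succ {n : ℕ} (hn : 1 ≤ n) (ω : Ω) : Y A (n + 1) ω = Y A n ω + Y A n ω * J A (n + 1) ω / n := by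
  unfold Y
  rw [← Finset.insert_Icc_right_eq_Icc_add_one (by omega), Finset.prod_insert (by simp)]
  push_cast
  ring

lemma Y_pos (n : ℕ) (ω : Ω) : 1 ≤ Y A n ω := by
  unfold Y
  have h : ∀ k ∈ Finset.Icc 2 n, (1 : ℝ) ≤ 1 + J A k ω / ((k : ℝ) - 1) := by
    intro k hk
    have h1 := (Finset.mem_Icc.1 hk).1
    have h2 : (2 : ℝ) ≤ k := by exact_mod_cast h1
    have h3 : 0 ≤ J A k ω / ((k : ℝ) - 1) := div_nonneg (J_nonneg k ω) (by linarith)
    linarith
  calc (1 : ℝ) = ∏ k ∈ Finset.Icc 2 n, (1 : ℝ) := by simp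
    _ ≤ _ := Finset.prod_le_prod (fun _ _ => by norm_num) h

lemma Y_le : ∀ n : ℕ, 1 ≤ n → ∀ ω : Ω, Y A n ω ≤ n := by
  intro n hn ω
  induction n, hn using Nat.le_induction with
  | base => simp [Y]
  | succ n hn ih =>
    rw [Y_succ hn]
    have h0 : (1 : ℝ) ≤ n := by exact_mod_cast hn
    have h1 := Y_pos (A := A) n ω
    have h2 : Y A n ω * J A (n + 1) ω / n ≤ 1 := by
      rw [div_le_one (by linarith)]
      have := J_le (A := A) (n + 1) ω
      have := J_nonneg (A := A) (n + 1) ω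
      nlinarith
    push_cast
    linarith

lemma J_meas (hA : ∀ n, MeasurableSet[ℱ n] (A n)) {k n : ℕ} (hk : k ≤ n) : Measurable[ℱ n] (J A k) := by
  unfold J
  exact Measurable.indicator (m := ℱ n) measurable_const (ℱ.mono hk _ (hA k))

lemma Y_meas (hA : ∀ n, MeasurableSet[ℱ n] (A n)) (n : ℕ) : Measurable[ℱ n] (Y A n) := by
  unfold Y
  refine Finset.measurable_prod (m := ℱ n) _ fun k hk => ?_
  exact Measurable.const_add (m := ℱ n) (Measurable.div_const (m := ℱ n) (J_meas hA (Finset.mem_Icc.1 hk).2) _) _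

/-- the integral of a bounded function of the past against the indicator of `n + 1 ∈ A` -/
lemma pull (hA : ∀ n, MeasurableSet[ℱ n] (A n)) (n : ℕ) {f : Ω → ℝ} (hf : Measurable[ℱ n] f) {c : ℝ}
    (hc : ∀ ω, |f ω| ≤ c) : μ[fun ω => f ω * J A (n + 1) ω | ℱ n] =ᵐ[μ] fun ω => f ω * dens μ ℱ A n ω := by
  have hA' : MeasurableSet (A (n + 1)) := ℱ.le (n + 1) _ (hA (n + 1))
  have h1 := condExp_stronglyMeasurable_mul_of_bound (μ := μ) (ℱ.le n) (f := f) (g := J A (n + 1))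
    (hf.stronglyMeasurable) ((integrable_const (1 : ℝ)).indicator hA') c
    (Eventually.of_forall fun ω => by rw [Real.norm_eq_abs]; exact hc ω)
  exact h1


lemma J_sq (k : ℕ) (ω : Ω) : J A k ω * J A k ω = J A k ω := by
  rcases J_cases (A := A) k ω with h | h <;> rw [h] <;> norm_num

lemma int_pull (hA : ∀ n, MeasurableSet[ℱ n] (A n))
    (hH : ∀ n : ℕ, 2 ≤ n → ∀ᵐ ω ∂μ, dens μ ℱ A n ω = (Y A n ω)⁻¹) {n : ℕ} (hn : 2 ≤ n)
    {f : Ω → ℝ} (hf : Measurable[ℱ n] f) {c : ℝ} (hc : ∀ ω, |f ω| ≤ c) :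
    ∫ ω, f ω * J A (n + 1) ω ∂μ = ∫ ω, f ω * (Y A n ω)⁻¹ ∂μ := by
  rw [← integral_condExp (ℱ.le n) (f := fun ω => f ω * J A (n + 1) ω)]
  refine integral_congr_ae ?_
  filter_upwards [pull hA n hf hc, hH n hn] with ω h1 h2
  rw [h1, h2]

/-- the partial sums of `1 / k`, `k ≥ 2` -/
noncomputable def S (n : ℕ) : ℝ := ∑ k ∈ Finset.range n, 1 / ((k : ℝ) + 2)

lemma S_succ (n : ℕ) : S (n + 1) = S n + 1 / ((n : ℝ) + 2) := by
  unfold S
  rw [Finset.sum_range_succ]

lemma S_nonneg (n : ℕ) : 0 ≤ S n := Finset.sum_nonneg fun k _ => by positivity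

/-- the martingale -/
noncomputable def MM (A : ℕ → Set Ω) (n : ℕ) (ω : Ω) : ℝ := Y A (n + 2) ω - S n

lemma Y_bound (n : ℕ) (ω : Ω) : |Y A (n + 2) ω| ≤ (n : ℝ) + 2 := by
  have h1 := Y_pos (A := A) (n + 2) ω
  have h2 := Y_le (A := A) (n + 2) (by omega) ω
  push_cast at h2
  rw [abs_of_nonneg (by linarith)]
  exact h2

lemma MM_bound (n : ℕ) (ω : Ω) : |MM A n ω| ≤ (n : ℝ) + 2 + S n := by
  unfold MM
  have h1 := Y_bound (A := A) n ω
  have h2 := S_nonneg n
  rw [abs_le] at *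
  constructor <;> linarith [h1.1, h1.2]

lemma MM_succ (n : ℕ) (ω : Ω) : MM A (n + 1) ω =
    (MM A n ω - 1 / ((n : ℝ) + 2)) + (1 / ((n : ℝ) + 2)) * (Y A (n + 2) ω * J A (n + 3) ω) := by
  unfold MM
  rw [show n + 1 + 2 = (n + 2) + 1 by ring, Y_succ (by omega), S_succ]
  push_cast
  ring

lemma bdd_int {f : Ω → ℝ} {n : ℕ} (hf : Measurable[ℱ n] f) {c : ℝ} (hc : ∀ ω, |f ω| ≤ c) :
    Integrable f μ :=
  Integrable.of_bound (hf.mono (ℱ.le n) le_rfl).aestronglyMeasurable c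
    (Eventually.of_forall fun ω => by rw [Real.norm_eq_abs]; exact hc ω)

lemma MM_meas (hA : ∀ n, MeasurableSet[ℱ n] (A n)) (n : ℕ) : Measurable[ℱ (n + 2)] (MM A n) := by
  unfold MM
  exact Measurable.sub_const (m := ℱ (n + 2)) (Y_meas hA (n + 2)) _

lemma intY (hA : ∀ n, MeasurableSet[ℱ n] (A n))
    (hH : ∀ n : ℕ, 2 ≤ n → ∀ᵐ ω ∂μ, dens μ ℱ A n ω = (Y A n ω)⁻¹) (n : ℕ) :
    ∫ ω, Y A (n + 2) ω ∂μ ≤ 2 + S n := by
  induction n with
  | zero =>
    have h1 : ∫ ω, Y A (0 + 2) ω ∂μ ≤ ∫ ω, (2 : ℝ) ∂μ := by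
      refine integral_mono (bdd_int (Y_meas hA _) (c := 2) fun ω => ?_) (integrable_const _) fun ω => ?_
      · have := Y_bound (A := A) 0 ω
        simpa using this
      · have := Y_bound (A := A) 0 ω
        have := (abs_le.1 this).2
        simpa using this
    simp only [integral_const, probReal_univ, smul_eq_mul, one_mul] at h1
    simpa [S] using h1
  | succ n ih =>
    have h1 : ∀ ω, Y A (n + 1 + 2) ω = Y A (n + 2) ω + (1 / ((n : ℝ) + 2)) * (Y A (n + 2) ω * J A (n + 3) ω) := by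
      intro ω
      rw [show n + 1 + 2 = (n + 2) + 1 by ring, Y_succ (by omega)]
      push_cast
      ring
    have i1 : Integrable (Y A (n + 2)) μ := bdd_int (Y_meas hA _) (Y_bound n)
    have i2 : Integrable (fun ω => Y A (n + 2) ω * J A (n + 3) ω) μ := by
      refine bdd_int (ℱ := ℱ) (n := n + 3) (c := (n : ℝ) + 2) ?_ fun ω => ?_
      · exact Measurable.mul (m := ℱ (n + 3)) ((Y_meas hA (n + 2)).mono (ℱ.mono (by omega)) le_rfl) (J_meas hA le_rfl)
      · rw [abs_mul]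
        have h2 := Y_bound (A := A) n ω
        have h3 := J_le (A := A) (n + 3) ω
        have h4 := J_nonneg (A := A) (n + 3) ω
        rw [abs_of_nonneg h4]
        nlinarith [abs_nonneg (Y A (n + 2) ω)]
    simp_rw [h1]
    rw [integral_add i1 (i2.const_mul _), integral_const_mul,
      int_pull hA hH (n := n + 2) (by omega) (Y_meas hA (n + 2)) (Y_bound n)]
    have h5 : ∀ ω, Y A (n + 2) ω * (Y A (n + 2) ω)⁻¹ = 1 := fun ω =>
      mul_inv_cancel₀ (by have := Y_pos (A := A) (n + 2) ω; linarith)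
    simp_rw [h5]
    rw [S_succ]
    simp only [integral_const, probReal_univ, smul_eq_mul, mul_one]
    linarith

/-- the potential -/
noncomputable def pot (n : ℕ) : ℝ := (S n + 3) / ((n : ℝ) + 1)

lemma pot_succ (n : ℕ) : pot (n + 1) + (S n + 2) / ((n : ℝ) + 2) ^ 2 ≤ pot n := by
  unfold pot
  rw [S_succ]
  have h0 := S_nonneg n
  have h1 : (0 : ℝ) < (n : ℝ) + 1 := by positivity
  have h2 : (0 : ℝ) < (n : ℝ) + 2 := by positivity
  push_cast
  have e : (S n + 3) / ((n : ℝ) + 1) - ((S n + 1 / ((n : ℝ) + 2) + 3) / ((n : ℝ) + 1 + 1) + (S n + 2) / ((n : ℝ) + 2) ^ 2)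
      = (S n + 3) / (((n : ℝ) + 1) * ((n : ℝ) + 2) ^ 2) := by
    rw [show (n : ℝ) + 1 + 1 = (n : ℝ) + 2 by ring]
    field_simp
    ring
  have h3 : 0 ≤ (S n + 3) / (((n : ℝ) + 1) * ((n : ℝ) + 2) ^ 2) := by positivity
  linarith

/-- the second moments are bounded -/
lemma sq_bound (hA : ∀ n, MeasurableSet[ℱ n] (A n))
    (hH : ∀ n : ℕ, 2 ≤ n → ∀ᵐ ω ∂μ, dens μ ℱ A n ω = (Y A n ω)⁻¹) (n : ℕ) :
    ∫ ω, MM A n ω ^ 2 ∂μ + pot n ≤ 7 := by
  induction n with
  | zero =>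
    have h1 : ∫ ω, MM A 0 ω ^ 2 ∂μ ≤ ∫ ω, (4 : ℝ) ∂μ := by
      refine integral_mono ?_ (integrable_const _) fun ω => ?_
      · refine bdd_int (ℱ := ℱ) (n := 2) (c := 4) (Measurable.pow_const (m := ℱ 2) (MM_meas hA 0) 2) fun ω => ?_
        have := MM_bound (A := A) 0 ω
        simp only [S, Finset.range_zero, Finset.sum_empty, CharP.cast_eq_zero] at this
        rw [abs_pow]
        nlinarith [abs_nonneg (MM A 0 ω)]
      · have := MM_bound (A := A) 0 ω
        simp only [S, Finset.range_zero, Finset.sum_empty, CharP.cast_eq_zero] at this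
        have h := sq_abs (MM A 0 ω)
        show MM A 0 ω ^ 2 ≤ 4
        rw [← h]
        nlinarith [abs_nonneg (MM A 0 ω)]
    simp only [integral_const, probReal_univ, smul_eq_mul, one_mul] at h1
    have : pot 0 = 3 := by simp [pot, S]
    linarith
  | succ n ih =>
    obtain ⟨a, ha⟩ : ∃ a : ℝ, a = 1 / ((n : ℝ) + 2) := ⟨_, rfl⟩
    have ha0 : 0 < a := by rw [ha]; positivity
    have h1 : ∀ ω, MM A (n + 1) ω ^ 2 = (MM A n ω ^ 2 - 2 * a * MM A n ω + a ^ 2) +
        (2 * a * (MM A n ω * Y A (n + 2) ω) + a ^ 2 * (Y A (n + 2) ω ^ 2 - 2 * Y A (n + 2) ω)) * J A (n + 3) ω := by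
      intro ω
      rw [MM_succ, ← ha]
      have h := J_sq (A := A) (n + 3) ω
      linear_combination (a ^ 2 * Y A (n + 2) ω ^ 2) * h
    have mM := MM_meas hA (ℱ := ℱ) n
    have mY := Y_meas hA (ℱ := ℱ) (n + 2)
    have bM := MM_bound (A := A) n
    have bY := Y_bound (A := A) n
    obtain ⟨c, hc⟩ : ∃ c : ℝ, c = (n : ℝ) + 2 + S n := ⟨_, rfl⟩
    have hc1 : 1 ≤ c := by rw [hc]; have := S_nonneg n; have : (0 : ℝ) ≤ n := by positivity
                           linarith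
    have bM' : ∀ ω, |MM A n ω| ≤ c := fun ω => by rw [hc]; exact bM ω
    have bY' : ∀ ω, |Y A (n + 2) ω| ≤ c := fun ω => by
      rw [hc]; have := bY ω; have := S_nonneg n; linarith
    have a1 : a ≤ 1 := by
      rw [ha, div_le_one (by positivity)]
      have : (0 : ℝ) ≤ n := by positivity
      linarith
    have iM : Integrable (MM A n) μ := bdd_int mM bM'
    have iM2 : Integrable (fun ω => MM A n ω ^ 2) μ := by
      refine bdd_int (Measurable.pow_const (m := ℱ (n + 2)) mM 2) (c := c ^ 2) fun ω => ?_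
      rw [abs_pow]
      exact pow_le_pow_left₀ (abs_nonneg _) (bM' ω) 2
    have i1 : Integrable (fun ω => MM A n ω ^ 2 - 2 * a * MM A n ω + a ^ 2) μ :=
      (iM2.sub (iM.const_mul _)).add (integrable_const _)
    obtain ⟨f, hf⟩ : ∃ f : Ω → ℝ, f = fun ω => 2 * a * (MM A n ω * Y A (n + 2) ω) +
      a ^ 2 * (Y A (n + 2) ω ^ 2 - 2 * Y A (n + 2) ω) := ⟨_, rfl⟩
    have fm : Measurable[ℱ (n + 2)] f := by
      rw [hf]
      exact Measurable.add (m := ℱ (n + 2))
        (Measurable.const_mul (m := ℱ (n + 2)) (Measurable.mul (m := ℱ (n + 2)) mM mY) _)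
        (Measurable.const_mul (m := ℱ (n + 2)) (Measurable.sub (m := ℱ (n + 2))
          (Measurable.pow_const (m := ℱ (n + 2)) mY 2) (Measurable.const_mul (m := ℱ (n + 2)) mY _)) _)
    have fb : ∀ ω, |f ω| ≤ 2 * (c * c) + (c ^ 2 + 2 * c) := by
      intro ω
      rw [hf]
      have e1 : |MM A n ω * Y A (n + 2) ω| ≤ c * c := by
        rw [abs_mul]
        exact mul_le_mul (bM' ω) (bY' ω) (abs_nonneg _) (by linarith)
      have e2 : |Y A (n + 2) ω ^ 2 - 2 * Y A (n + 2) ω| ≤ c ^ 2 + 2 * c := by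
        refine (abs_sub _ _).trans ?_
        rw [abs_pow, abs_mul, abs_of_pos (show (0 : ℝ) < 2 by norm_num)]
        have := pow_le_pow_left₀ (abs_nonneg _) (bY' ω) 2
        have := bY' ω
        linarith
      refine (abs_add_le _ _).trans ?_
      rw [abs_mul (2 * a), abs_mul (a ^ 2), abs_of_pos (show (0 : ℝ) < 2 * a by positivity),
        abs_of_pos (show (0 : ℝ) < a ^ 2 by positivity)]
      have a2 : a ^ 2 ≤ 1 := by nlinarith
      have g1 : 2 * a * |MM A n ω * Y A (n + 2) ω| ≤ 2 * 1 * (c * c) := by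
        apply mul_le_mul (by linarith) e1 (abs_nonneg _) (by norm_num)
      have g2 : a ^ 2 * |Y A (n + 2) ω ^ 2 - 2 * Y A (n + 2) ω| ≤ 1 * (c ^ 2 + 2 * c) :=
        mul_le_mul a2 e2 (abs_nonneg _) (by norm_num)
      linarith
    have i2 : Integrable (fun ω => f ω * J A (n + 3) ω) μ := by
      refine bdd_int (ℱ := ℱ) (n := n + 3) (c := 2 * (c * c) + (c ^ 2 + 2 * c)) ?_ fun ω => ?_
      · exact Measurable.mul (m := ℱ (n + 3)) (fm.mono (ℱ.mono (by omega)) le_rfl) (J_meas hA le_rfl)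
      · rw [abs_mul]
        have h2 := fb ω
        have h3 := J_le (A := A) (n + 3) ω
        have h4 := J_nonneg (A := A) (n + 3) ω
        rw [abs_of_nonneg h4]
        nlinarith [abs_nonneg (f ω)]
    have h2 : ∫ ω, MM A (n + 1) ω ^ 2 ∂μ = ∫ ω, (MM A n ω ^ 2 - 2 * a * MM A n ω + a ^ 2) ∂μ +
        ∫ ω, f ω * J A (n + 3) ω ∂μ := by
      rw [← integral_add i1 i2]
      refine integral_congr_ae (Eventually.of_forall fun ω => ?_)
      simp only
      rw [h1 ω, hf]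
    have h3 : ∫ ω, f ω * J A (n + 3) ω ∂μ = ∫ ω, (2 * a * MM A n ω + a ^ 2 * (Y A (n + 2) ω - 2)) ∂μ := by
      rw [int_pull hA hH (n := n + 2) (by omega) fm fb]
      refine integral_congr_ae (Eventually.of_forall fun ω => ?_)
      simp only
      rw [hf]
      have h5 : Y A (n + 2) ω ≠ 0 := by have := Y_pos (A := A) (n + 2) ω; linarith
      field_simp
    have iY : Integrable (Y A (n + 2)) μ := bdd_int mY bY'
    have h4 : ∫ ω, MM A (n + 1) ω ^ 2 ∂μ = ∫ ω, MM A n ω ^ 2 ∂μ + a ^ 2 * (∫ ω, Y A (n + 2) ω ∂μ - 1) := by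
      have i3 : Integrable (fun ω => 2 * a * MM A n ω + a ^ 2 * (Y A (n + 2) ω - 2)) μ :=
        (iM.const_mul _).add ((iY.sub (integrable_const _)).const_mul _)
      have i4 : Integrable (fun ω => a ^ 2 * (Y A (n + 2) ω - 1)) μ := (iY.sub (integrable_const _)).const_mul _
      rw [h2, h3, ← integral_add i1 i3]
      have e : ∀ ω, (MM A n ω ^ 2 - 2 * a * MM A n ω + a ^ 2) + (2 * a * MM A n ω + a ^ 2 * (Y A (n + 2) ω - 2)) =
          MM A n ω ^ 2 + a ^ 2 * (Y A (n + 2) ω - 1) := fun ω => by ring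
      simp_rw [e]
      rw [integral_add iM2 i4, integral_const_mul, integral_sub iY (integrable_const _)]
      simp only [integral_const, probReal_univ, smul_eq_mul, mul_one]
    have h5 := intY hA hH n
    have h6 := pot_succ n
    have h7 : a ^ 2 * (∫ ω, Y A (n + 2) ω ∂μ - 1) ≤ (S n + 2) / ((n : ℝ) + 2) ^ 2 := by
      have e : (S n + 2) / ((n : ℝ) + 2) ^ 2 = a ^ 2 * (S n + 2) := by
        rw [ha]; field_simp
      rw [e]
      apply mul_le_mul_of_nonneg_left _ (by positivity)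
      linarith
    linarith


/-- the filtration from index two on -/
def shift (ℱ : Filtration ℕ m0) : Filtration ℕ m0 where
  seq n := ℱ (n + 2)
  mono' _ _ h := ℱ.mono (by omega)
  le' n := ℱ.le (n + 2)

lemma martingale (hA : ∀ n, MeasurableSet[ℱ n] (A n))
    (hH : ∀ n : ℕ, 2 ≤ n → ∀ᵐ ω ∂μ, dens μ ℱ A n ω = (Y A n ω)⁻¹) :
    Martingale (MM A) (shift ℱ) μ := by
  have iM : ∀ n, Integrable (MM A n) μ := fun n => bdd_int (MM_meas hA (ℱ := ℱ) n) (MM_bound n)
  refine martingale_nat (fun n => (MM_meas hA n).stronglyMeasurable) iM fun n => ?_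
  have mM := MM_meas hA (ℱ := ℱ) n
  have mY := Y_meas hA (ℱ := ℱ) (n + 2)
  have i1 : Integrable (fun ω => MM A n ω - 1 / ((n : ℝ) + 2)) μ := (iM n).sub (integrable_const _)
  have i2 : Integrable (fun ω => Y A (n + 2) ω * J A (n + 3) ω) μ := by
    refine bdd_int (ℱ := ℱ) (n := n + 3) (c := (n : ℝ) + 2) ?_ fun ω => ?_
    · exact Measurable.mul (m := ℱ (n + 3)) (mY.mono (ℱ.mono (by omega)) le_rfl) (J_meas hA le_rfl)
    · rw [abs_mul]
      have h2 := Y_bound (A := A) n ω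
      have h3 := J_le (A := A) (n + 3) ω
      have h4 := J_nonneg (A := A) (n + 3) ω
      rw [abs_of_nonneg h4]
      nlinarith [abs_nonneg (Y A (n + 2) ω)]
  have e : MM A (n + 1) = (fun ω => MM A n ω - 1 / ((n : ℝ) + 2)) +
      (1 / ((n : ℝ) + 2)) • (fun ω => Y A (n + 2) ω * J A (n + 3) ω) := by
    funext ω
    rw [MM_succ]
    rfl
  have h1 := condExp_add i1 (i2.smul (1 / ((n : ℝ) + 2))) (shift ℱ n)
  have h2 := condExp_smul (μ := μ) (1 / ((n : ℝ) + 2)) (fun ω => Y A (n + 2) ω * J A (n + 3) ω) (shift ℱ n)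
  have h3 : μ[(fun ω => MM A n ω - 1 / ((n : ℝ) + 2)) | shift ℱ n] = (fun ω => MM A n ω - 1 / ((n : ℝ) + 2)) :=
    condExp_of_stronglyMeasurable ((shift ℱ).le n)
      (Measurable.sub_const (m := ℱ (n + 2)) mM _).stronglyMeasurable i1
  have h4 := pull (μ := μ) hA (n + 2) mY (Y_bound n)
  rw [e]
  filter_upwards [h1, h2, h4, hH (n + 2) (by omega)] with ω g1 g2 g4 g5
  rw [g1, Pi.add_apply, h3, g2, Pi.smul_apply, smul_eq_mul]
  have g6 : (μ[fun ω => Y A (n + 2) ω * J A (n + 3) ω | shift ℱ n]) ω = 1 := by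
    have : (μ[fun ω => Y A (n + 2) ω * J A (n + 3) ω | shift ℱ n]) ω = Y A (n + 2) ω * dens μ ℱ A (n + 2) ω := g4
    rw [this, g5]
    exact mul_inv_cancel₀ (by have := Y_pos (A := A) (n + 2) ω; linarith)
  rw [g6]
  ring

lemma converges (hA : ∀ n, MeasurableSet[ℱ n] (A n))
    (hH : ∀ n : ℕ, 2 ≤ n → ∀ᵐ ω ∂μ, dens μ ℱ A n ω = (Y A n ω)⁻¹) :
    ∀ᵐ ω ∂μ, ∃ c, Tendsto (fun n => MM A n ω) atTop (𝓝 c) := by
  refine (martingale hA hH).submartingale.exists_ae_tendsto_of_bdd (R := 8) fun n => ?_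
  have iM : Integrable (MM A n) μ := bdd_int (MM_meas hA (ℱ := ℱ) n) (MM_bound n)
  have iM2 : Integrable (fun ω => MM A n ω ^ 2) μ := by
    refine bdd_int (Measurable.pow_const (m := ℱ (n + 2)) (MM_meas hA n) 2) (c := ((n : ℝ) + 2 + S n) ^ 2) fun ω => ?_
    rw [abs_pow]
    exact pow_le_pow_left₀ (abs_nonneg _) (MM_bound n ω) 2
  rw [eLpNorm_one_eq_lintegral_enorm, ← ofReal_integral_norm_eq_lintegral_enorm iM]
  have h1 : ∫ ω, ‖MM A n ω‖ ∂μ ≤ ∫ ω, (1 + MM A n ω ^ 2) ∂μ := by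
    refine integral_mono iM.norm ((integrable_const _).add iM2) fun ω => ?_
    show ‖MM A n ω‖ ≤ 1 + MM A n ω ^ 2
    rw [Real.norm_eq_abs, ← sq_abs]
    nlinarith [sq_nonneg (|MM A n ω| - 1), abs_nonneg (MM A n ω)]
  rw [integral_add (integrable_const _) iM2] at h1
  simp only [integral_const, probReal_univ, smul_eq_mul, mul_one] at h1
  have h2 := sq_bound hA hH n
  have h3 : 0 ≤ pot n := by unfold pot; have := S_nonneg n; positivity
  calc ENNReal.ofReal (∫ ω, ‖MM A n ω‖ ∂μ) ≤ ENNReal.ofReal 8 := ENNReal.ofReal_le_ofReal (by linarith)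
    _ = ((8 : NNReal) : ℝ≥0∞) := by norm_num

lemma S_log : Tendsto (fun n : ℕ => S n - Real.log ((n : ℝ) + 2)) atTop (𝓝 (Real.eulerMascheroniConstant - 1)) := by
  have h1 := (tendsto_add_atTop_iff_nat 1).2 Real.tendsto_harmonic_sub_log
  have h2 : Tendsto (fun n : ℕ => Real.log (((n + 1 : ℕ) : ℝ)) - Real.log ((n : ℝ) + 2)) atTop (𝓝 0) := by
    have h3 : Tendsto (fun n : ℕ => ((n : ℝ) + 1) / ((n : ℝ) + 2)) atTop (𝓝 1) := by
      have h4 : Tendsto (fun n : ℕ => 1 - 1 / ((n : ℝ) + 2)) atTop (𝓝 (1 - 0)) := by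
        refine tendsto_const_nhds.sub ?_
        exact tendsto_const_nhds.div_atTop (tendsto_natCast_atTop_atTop.atTop_add tendsto_const_nhds)
      rw [sub_zero] at h4
      refine h4.congr fun n => ?_
      have : (n : ℝ) + 2 ≠ 0 := by positivity
      field_simp
      ring
    have h5 := ((Real.continuousAt_log (one_ne_zero)).tendsto.comp h3)
    rw [Real.log_one] at h5
    refine h5.congr fun n => ?_
    simp only [Function.comp_apply]
    rw [Real.log_div (by positivity) (by positivity)]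
    push_cast
    ring
  have h6 := (h1.add h2).sub_const 1
  rw [add_zero] at h6
  refine h6.congr fun n => ?_
  have e : ((harmonic (n + 1) : ℚ) : ℝ) = S n + 1 := by
    unfold harmonic S
    rw [Finset.sum_range_succ']
    push_cast
    rw [inv_one]
    congr 1
    refine Finset.sum_congr rfl fun k _ => ?_
    rw [one_div]
    congr 1
    ring
  rw [e]
  ring

lemma tendsto_lll : Tendsto (fun n : ℕ => Real.log (Real.log (Real.log n))) atTop atTop :=
  Real.tendsto_log_atTop.comp (Real.tendsto_log_atTop.comp (Real.tendsto_log_atTop.comp tendsto_natCast_atTop_atTop))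

lemma h_all (hH : ∀ n : ℕ, 2 ≤ n → ∀ᵐ ω ∂μ, dens μ ℱ A n ω = (Y A n ω)⁻¹) :
    ∀ᵐ ω ∂μ, ∀ n : ℕ, 2 ≤ n → dens μ ℱ A n ω = (Y A n ω)⁻¹ := by
  rw [ae_all_iff]
  intro n
  rw [ae_all_iff]
  exact fun hn => hH n hn

/-- the reciprocal of the conditional probability in the sieve of Hawkins is `log n + c + o(1)` -/
theorem hawkins_lim (hA : ∀ n, MeasurableSet[ℱ n] (A n))
    (hH : ∀ n : ℕ, 2 ≤ n → ∀ᵐ ω ∂μ, dens μ ℱ A n ω = (Y A n ω)⁻¹) :
    ∀ᵐ ω ∂μ, ∃ c : ℝ, Tendsto (fun n : ℕ => (dens μ ℱ A n ω)⁻¹ - Real.log n) atTop (𝓝 c) := by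
  filter_upwards [h_all hH, converges hA hH] with ω h1 h2
  obtain ⟨c, hc⟩ := h2
  refine ⟨c + (Real.eulerMascheroniConstant - 1), ?_⟩
  have h3 : Tendsto (fun n : ℕ => Y A (n + 2) ω - Real.log ((n : ℝ) + 2)) atTop
      (𝓝 (c + (Real.eulerMascheroniConstant - 1))) := by
    refine (hc.add S_log).congr fun n => ?_
    unfold MM
    ring
  have h4 : Tendsto (fun n : ℕ => Y A n ω - Real.log n) atTop (𝓝 (c + (Real.eulerMascheroniConstant - 1))) := by
    rw [← tendsto_add_atTop_iff_nat 2]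
    refine h3.congr fun n => ?_
    push_cast
    rfl
  refine h4.congr' ?_
  filter_upwards [eventually_ge_atTop 2] with n hn
  rw [h1 n hn, inv_inv]

/-- the random sieve of Hawkins satisfies the hypothesis of the second order law -/
theorem hawkins_hyp (hA : ∀ n, MeasurableSet[ℱ n] (A n))
    (hH : ∀ n : ℕ, 2 ≤ n → ∀ᵐ ω ∂μ, dens μ ℱ A n ω = (Y A n ω)⁻¹) :
    ∀ᵐ ω ∂μ, Tendsto (fun n : ℕ => ((dens μ ℱ A n ω)⁻¹ - Real.log n) /
      Real.log (Real.log (Real.log n))) atTop (𝓝 0) := by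
  filter_upwards [hawkins_lim hA hH] with ω h
  obtain ⟨c, hc⟩ := h
  exact hc.div_atTop tendsto_lll

/-- independent events with probabilities close to `1 / log n` -/
theorem indep_hyp {A : ℕ → Set Ω} (hm : ∀ n, MeasurableSet (A n)) (hi : ProbabilityTheory.iIndepSet A μ)
    (hp : Tendsto (fun n : ℕ => ((μ.real (A (n + 1)))⁻¹ - Real.log n) / Real.log (Real.log (Real.log n)))
      atTop (𝓝 0)) :
    ∀ᵐ ω ∂μ, Tendsto (fun n : ℕ => ((dens μ (filtrationOfSet hm) A n ω)⁻¹ - Real.log n) /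
      Real.log (Real.log (Real.log n))) atTop (𝓝 0) := by
  have h0 : ∀ᵐ ω ∂μ, ∀ n : ℕ, dens μ (filtrationOfSet hm) A n ω = μ.real (A (n + 1)) := by
    rw [ae_all_iff]
    intro n
    exact hi.condExp_indicator_filtrationOfSet_ae_eq hm n.lt_succ_self
  filter_upwards [h0] with ω h1
  refine hp.congr fun n => ?_
  rw [h1 n]

end Pool.Agent.U462.RM
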