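import Mathlib
import Pool.Agent.U462.RM.GrowLaw
import Pool.Agent.U462.RM.Li
import Pool.Agent.Y781.JR.Dens

set_option autoImplicit false
set_option linter.unusedSectionVars false

/-! # The law for `n ^ 2 + a` in every sequential model with a growing sieve -/

open MeasureTheory Filter Set Polynomial
open scoped ENNReal Topology

namespace Pool.Agent.U462.RM

open Pool.Agent.R528.RM
open Pool.Agent.Y781.JR (RR RR_conv)
open Pool.Agent.Y882.SI (QF QF_eval ro_quad ro_quad_two)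
open Pool.Agent.Y882.PX (ro ro_eq)

lemma omega_quad (a : ℤ) (p : ℕ) : omegaF {QF a} p = ro (QF a) 0 p := by
  rw [ro_eq]
  unfold omegaF
  rw [← Set.ncard_coe_finset]
  congr 1
  ext r
  simp

lemma CC_quad (a : ℤ) (j : ℕ) : CC (QF a) j = RR a (j + 1) := by
  unfold CC RR PS
  rw [← Finset.filter_filter, Finset.prod_filter (s := (Finset.range (j + 1)).filter Nat.Prime)]
  refine Finset.prod_congr rfl fun p hp => ?_
  have hpp := (Finset.mem_filter.1 hp).2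
  have h2 : (2 : ℝ) ≤ p := by exact_mod_cast hpp.two_le
  rw [omega_quad]
  have h5 : (p : ℝ) - 1 ≠ 0 := by linarith
  have h6 : (p : ℝ) ≠ 0 := by linarith
  split_ifs with h
  · have h3 := ro_quad a p hpp h
    have h4 : (ro (QF a) 0 p : ℝ) = 1 + (jacobiSym (-a) p : ℝ) := by exact_mod_cast h3
    rw [h4]
    field_simp
    ring
  · have hp2 : p = 2 := by
      by_contra h'
      exact h h'
    subst hp2
    rw [ro_quad_two]
    norm_num

lemma QF_deg (a : ℤ) : (QF a).natDegree = 2 := by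
  unfold QF
  exact natDegree_X_pow_add_C

lemma QF_lead (a : ℤ) : (QF a).leadingCoeff = 1 := by
  unfold QF
  exact leadingCoeff_X_pow_add_C (by norm_num)

lemma RR_one (x : ℕ) : RR 1 (x + 1) =
    ∏ p ∈ (Finset.range (x + 1)).filter (fun p => p.Prime ∧ Odd p),
            (1 - (((ZMod.χ₄ (p : ZMod 4) : ℤ) : ℝ)) / ((p : ℝ) - 1)) := by
  unfold RR
  have hs : (Finset.range (x + 1)).filter (fun p : ℕ => p.Prime ∧ p ≠ 2) =
      (Finset.range (x + 1)).filter (fun p : ℕ => p.Prime ∧ Odd p) := by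
    apply Finset.filter_congr
    intro p _
    constructor
    · rintro ⟨h1, h2⟩
      exact ⟨h1, h1.odd_of_ne_two h2⟩
    · rintro ⟨h1, h2⟩
      refine ⟨h1, fun h => ?_⟩
      rw [h] at h2
      exact absurd h2 (by decide)
  rw [hs]
  refine Finset.prod_congr rfl (fun p hp => ?_)
  have h := (Finset.mem_filter.1 hp).2.2
  rw [jacobiSym.at_neg_one h]

/-- counting from `1` to `N` instead of from `0` to `N - 1` -/
lemma shift_count (T : Set ℕ) {c : ℝ}
    (h : Tendsto (fun x : ℕ => ({n : ℕ | n < x ∧ n ∈ T}.ncard : ℝ) * Real.log x / x) atTop (𝓝 c)) :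
    Tendsto (fun N : ℕ => ({n : ℕ | 1 ≤ n ∧ n ≤ N ∧ n ∈ T}.ncard : ℝ) /
      ∫ t in (2 : ℝ)..N, 1 / Real.log t) atTop (𝓝 c) := by
  refine li_transfer ?_
  have h5 : ∀ N : ℕ, |({n : ℕ | 1 ≤ n ∧ n ≤ N ∧ n ∈ T}.ncard : ℝ) - ({n : ℕ | n < N ∧ n ∈ T}.ncard : ℝ)| ≤ 1 := by
    intro N
    have k1 : {n : ℕ | 1 ≤ n ∧ n ≤ N ∧ n ∈ T}.ncard ≤ {n : ℕ | n < N ∧ n ∈ T}.ncard + 1 := by
      have hs : {n : ℕ | 1 ≤ n ∧ n ≤ N ∧ n ∈ T} ⊆ insert N {n : ℕ | n < N ∧ n ∈ T} := by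
        rintro n ⟨g1, g2, g3⟩
        rcases g2.eq_or_lt with g | g
        · exact Or.inl g
        · exact Or.inr ⟨g, g3⟩
      refine (ncard_le_ncard hs (((finite_Iio N).subset fun n hn => hn.1).insert N)).trans (ncard_insert_le _ _)
    have k2 : {n : ℕ | n < N ∧ n ∈ T}.ncard ≤ {n : ℕ | 1 ≤ n ∧ n ≤ N ∧ n ∈ T}.ncard + 1 := by
      have hs : {n : ℕ | n < N ∧ n ∈ T} ⊆ insert 0 {n : ℕ | 1 ≤ n ∧ n ≤ N ∧ n ∈ T} := by
        rintro n ⟨g1, g2⟩
        rcases Nat.eq_zero_or_pos n with g | g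
        · exact Or.inl g
        · exact Or.inr ⟨g, g1.le, g2⟩
      refine (ncard_le_ncard hs (((finite_Iic N).subset fun n hn => hn.2.1).insert 0)).trans (ncard_insert_le _ _)
    have k1' : ({n : ℕ | 1 ≤ n ∧ n ≤ N ∧ n ∈ T}.ncard : ℝ) ≤ {n : ℕ | n < N ∧ n ∈ T}.ncard + 1 := by exact_mod_cast k1
    have k2' : ({n : ℕ | n < N ∧ n ∈ T}.ncard : ℝ) ≤ {n : ℕ | 1 ≤ n ∧ n ≤ N ∧ n ∈ T}.ncard + 1 := by exact_mod_cast k2
    rw [abs_le]
    constructor <;> linarith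
  have h6 : Tendsto (fun N : ℕ => (({n : ℕ | 1 ≤ n ∧ n ≤ N ∧ n ∈ T}.ncard : ℝ) - ({n : ℕ | n < N ∧ n ∈ T}.ncard : ℝ)) *
      (Real.log N / N)) atTop (𝓝 0) := by
    have h20 : Tendsto (fun x : ℝ => Real.log x ^ (1 : ℝ) / x ^ (1 : ℝ)) atTop (𝓝 0) :=
      (isLittleO_log_rpow_rpow_atTop (1 : ℝ) one_pos).tendsto_div_nhds_zero
    have h21 : Tendsto (fun x : ℕ => 1 * (Real.log x / x)) atTop (𝓝 (1 * 0)) :=
      ((h20.comp tendsto_natCast_atTop_atTop).congr fun x => by simp).const_mul _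
    rw [mul_zero] at h21
    refine squeeze_zero_norm (fun x => ?_) h21
    have hL := Real.log_natCast_nonneg x
    rw [Real.norm_eq_abs, abs_mul, abs_of_nonneg (show 0 ≤ Real.log (x : ℝ) / x by positivity)]
    exact mul_le_mul_of_nonneg_right (h5 x) (by positivity)
  have h7 := h.add h6
  rw [add_zero] at h7
  refine h7.congr fun x => ?_
  ring

end Pool.Agent.U462.RM
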